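import Mathlib

/-!
# The Neumann series on quojections: the analytic core

`Sys` collects the data: a vector space `E` with maps `π n` into Banach spaces, an operator `U` and
its resolvents `R c = (1 - c U)⁻¹`, `‖c‖ < δ`. The condition `quo` is the quojection property.
For fixed `n` the sets `A n N = {c | R c maps ker π N into ker π n}` are shown to be relatively
closed in the disc, the resolvent is bounded on `A n N` near every point of the disc, and a Baire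
category argument together with the maximum principle and the identity theorem shows that the
interiors of the sets `A n N` cover the disc. So `c ↦ π n (R c x)` is holomorphic.
-/

set_option autoImplicit false

namespace Pool.Agent.KS6_10.NS

open Set Filter Topology Metric

structure Sys (E : Type*) [AddCommGroup E] [Module ℂ E] (X : ℕ → Type*)
    [∀ n, NormedAddCommGroup (X n)] [∀ n, NormedSpace ℂ (X n)] where
  π : ∀ n, E →ₗ[ℂ] X n
  U : E →ₗ[ℂ] E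
  R : ℂ → E →ₗ[ℂ] E
  δ : ℝ
  hδ : 0 < δ
  mono : ∀ n m, n ≤ m → ∃ K : ℝ, 0 ≤ K ∧ ∀ x, ‖π n x‖ ≤ K * ‖π m x‖
  quo : ∀ n m, ∃ C : ℝ, 0 ≤ C ∧ ∀ x, ∃ z, π n z = 0 ∧ ‖π m (x + z)‖ ≤ C * ‖π n x‖
  contU : ∀ n, ∃ m, ∃ C : ℝ, 0 ≤ C ∧ ∀ x, ‖π n (U x)‖ ≤ C * ‖π m x‖
  contR : ∀ c, ‖c‖ < δ → ∀ n, ∃ m, ∃ C : ℝ, 0 ≤ C ∧ ∀ x, ‖π n (R c x)‖ ≤ C * ‖π m x‖
  left : ∀ c, ‖c‖ < δ → ∀ x, R c (x - c • U x) = x
  right : ∀ c, ‖c‖ < δ → ∀ x, R c x - c • U (R c x) = x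

variable {E : Type*} [AddCommGroup E] [Module ℂ E] {X : ℕ → Type*}
    [∀ n, NormedAddCommGroup (X n)] [∀ n, NormedSpace ℂ (X n)] (S : Sys E X)

def A (n N : ℕ) : Set ℂ := {c | ‖c‖ < S.δ ∧ ∀ x, S.π N x = 0 → S.π n (S.R c x) = 0}

theorem res {c ζ : ℂ} (hc : ‖c‖ < S.δ) (hζ : ‖ζ‖ < S.δ) (x : E) :
    S.R c x = S.R ζ x + (c - ζ) • S.R c (S.U (S.R ζ x)) := by
  have h := S.right ζ hζ x
  have h1 := S.left c hc (S.R ζ x)
  have h2 : x = (S.R ζ x - c • S.U (S.R ζ x)) + (c - ζ) • S.U (S.R ζ x) := by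
    conv_lhs => rw [← h]
    rw [sub_smul]; abel
  conv_lhs => rw [h2]
  rw [map_add, h1, map_smul]

theorem A_mono (n : ℕ) {N N' : ℕ} (h : N ≤ N') : A S n N ⊆ A S n N' := by
  rintro c ⟨h1, h2⟩
  refine ⟨h1, fun x hx => h2 x ?_⟩
  obtain ⟨K, -, hK⟩ := S.mono N N' h
  have := hK x
  rw [hx, norm_zero, mul_zero] at this
  exact norm_le_zero_iff.1 this

theorem exists_A (n : ℕ) {c : ℂ} (hc : ‖c‖ < S.δ) : ∃ N, c ∈ A S n N := by
  obtain ⟨m, C, -, hC⟩ := S.contR c hc n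
  refine ⟨m, hc, fun x hx => ?_⟩
  have := hC x
  rw [hx, norm_zero, mul_zero] at this
  exact norm_le_zero_iff.1 this

theorem bound_of_mem (n N : ℕ) {c : ℂ} (hc : c ∈ A S n N) :
    ∃ C : ℝ, 0 ≤ C ∧ ∀ x, ‖S.π n (S.R c x)‖ ≤ C * ‖S.π N x‖ := by
  obtain ⟨m, C, hC0, hC⟩ := S.contR c hc.1 n
  obtain ⟨C', hC'0, hC'⟩ := S.quo N m
  refine ⟨C * C', mul_nonneg hC0 hC'0, fun x => ?_⟩
  obtain ⟨z, hz, hz'⟩ := hC' x
  have h1 : S.π n (S.R c (x + z)) = S.π n (S.R c x) := by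
    rw [map_add, map_add, hc.2 z hz, add_zero]
  rw [← h1]
  calc _ ≤ C * ‖S.π m (x + z)‖ := hC _
    _ ≤ C * (C' * ‖S.π N x‖) := mul_le_mul_of_nonneg_left hz' hC0
    _ = _ := by ring

theorem local_bound (n N : ℕ) {ζ : ℂ} (hζ : ‖ζ‖ < S.δ) :
    ∃ ε : ℝ, 0 < ε ∧ ∃ M : ℝ, 0 ≤ M ∧ ∀ c ∈ A S n N, ‖c - ζ‖ < ε →
      ∀ x, ‖S.π n (S.R c x)‖ ≤ M * ‖S.π N x‖ := by
  obtain ⟨m1, C1, hC1, h1⟩ := S.contR ζ hζ n
  obtain ⟨m2, C2, hC2, h2⟩ := S.contU N
  obtain ⟨m3, C3, hC3, h3⟩ := S.contR ζ hζ m2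
  obtain ⟨m, hm⟩ : ∃ m, m = max m1 m3 := ⟨_, rfl⟩
  obtain ⟨K1, hK1, k1⟩ := S.mono m1 m (hm ▸ le_max_left _ _)
  obtain ⟨K3, hK3, k3⟩ := S.mono m3 m (hm ▸ le_max_right _ _)
  obtain ⟨C4, hC4, h4⟩ := S.quo N m
  obtain ⟨a, ha'⟩ : ∃ a, a = C4 * (C1 * K1) := ⟨_, rfl⟩
  obtain ⟨b, hb'⟩ : ∃ b, b = C4 * (C2 * (C3 * K3)) := ⟨_, rfl⟩
  have ha : 0 ≤ a := by rw [ha']; positivity
  have hb : 0 ≤ b := by rw [hb']; positivity
  refine ⟨1 / (2 * (b + 1)), by positivity, 2 * a, by positivity, ?_⟩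
  intro c hc hcz
  have hcb : ‖c - ζ‖ * b ≤ 1 / 2 := by
    have h0 : ‖c - ζ‖ * (2 * (b + 1)) < 1 := (lt_div_iff₀ (by positivity)).1 hcz
    have : 0 ≤ ‖c - ζ‖ := norm_nonneg _
    nlinarith
  have step : ∀ C : ℝ, 0 ≤ C → (∀ x, ‖S.π n (S.R c x)‖ ≤ C * ‖S.π N x‖) →
      ∀ x, ‖S.π n (S.R c x)‖ ≤ (a + C / 2) * ‖S.π N x‖ := by
    intro C hC hx x
    obtain ⟨z, hz, hz'⟩ := h4 x
    have e1 : S.π n (S.R c (x + z)) = S.π n (S.R c x) := by
      rw [map_add, map_add, hc.2 z hz, add_zero]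
    obtain ⟨y, hy⟩ : ∃ y, y = x + z := ⟨_, rfl⟩
    rw [← e1, ← hy, res S hc.1 hζ y, map_add, map_smul]
    rw [← hy] at hz'
    have p1 : ‖S.π n (S.R ζ y)‖ ≤ C1 * (K1 * ‖S.π m y‖) :=
      (h1 y).trans (mul_le_mul_of_nonneg_left (k1 y) hC1)
    have p2 : ‖S.π n (S.R c (S.U (S.R ζ y)))‖ ≤ C * (C2 * (C3 * (K3 * ‖S.π m y‖))) := by
      calc _ ≤ C * ‖S.π N (S.U (S.R ζ y))‖ := hx _
        _ ≤ C * (C2 * ‖S.π m2 (S.R ζ y)‖) := mul_le_mul_of_nonneg_left (h2 _) hC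
        _ ≤ C * (C2 * (C3 * ‖S.π m3 y‖)) := by
            apply mul_le_mul_of_nonneg_left _ hC
            exact mul_le_mul_of_nonneg_left (h3 _) hC2
        _ ≤ _ := by
            apply mul_le_mul_of_nonneg_left _ hC
            apply mul_le_mul_of_nonneg_left _ hC2
            exact mul_le_mul_of_nonneg_left (k3 _) hC3
    have hn0 : 0 ≤ ‖c - ζ‖ := norm_nonneg _
    calc ‖S.π n (S.R ζ y) + (c - ζ) • S.π n (S.R c (S.U (S.R ζ y)))‖
        ≤ ‖S.π n (S.R ζ y)‖ + ‖c - ζ‖ * ‖S.π n (S.R c (S.U (S.R ζ y)))‖ := by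
          refine (norm_add_le _ _).trans ?_
          rw [norm_smul]
      _ ≤ C1 * (K1 * ‖S.π m y‖) + ‖c - ζ‖ * (C * (C2 * (C3 * (K3 * ‖S.π m y‖)))) :=
          add_le_add p1 (mul_le_mul_of_nonneg_left p2 hn0)
      _ = (C1 * K1 + ‖c - ζ‖ * C * (C2 * (C3 * K3))) * ‖S.π m y‖ := by ring
      _ ≤ (C1 * K1 + ‖c - ζ‖ * C * (C2 * (C3 * K3))) * (C4 * ‖S.π N x‖) :=
          mul_le_mul_of_nonneg_left hz' (by positivity)
      _ = (a + C * (‖c - ζ‖ * b)) * ‖S.π N x‖ := by rw [ha', hb']; ring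
      _ ≤ (a + C / 2) * ‖S.π N x‖ := by
          apply mul_le_mul_of_nonneg_right _ (norm_nonneg _)
          have := mul_le_mul_of_nonneg_left hcb hC
          linarith
  obtain ⟨C, hC, hC'⟩ := bound_of_mem S n N hc
  have iter : ∀ j : ℕ, ∀ x, ‖S.π n (S.R c x)‖ ≤ (2 * a + C / 2 ^ j) * ‖S.π N x‖ := by
    intro j
    induction j with
    | zero =>
      intro x
      refine (hC' x).trans (mul_le_mul_of_nonneg_right ?_ (norm_nonneg _))
      rw [pow_zero, div_one]; linarith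
    | succ j ih =>
      intro x
      have := step (2 * a + C / 2 ^ j) (by positivity) ih x
      refine this.trans (le_of_eq ?_)
      rw [pow_succ]
      field_simp
      ring
  intro x
  have ht : Tendsto (fun j : ℕ => (2 * a + C / 2 ^ j) * ‖S.π N x‖) atTop
      (𝓝 ((2 * a + 0) * ‖S.π N x‖)) := by
    refine Tendsto.mul_const _ (Tendsto.const_add _ ?_)
    exact tendsto_const_nhds.div_atTop (tendsto_pow_atTop_atTop_of_one_lt (by norm_num))
  have := ge_of_tendsto' ht (fun j => iter j x)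
  simpa using this

theorem A_closed (n N : ℕ) {ζ : ℂ} (hζ : ‖ζ‖ < S.δ) (h : ζ ∈ closure (A S n N)) :
    ζ ∈ A S n N := by
  refine ⟨hζ, fun x hx => ?_⟩
  obtain ⟨ε, hε, M, hM, hb⟩ := local_bound S n N hζ
  by_contra hne
  obtain ⟨y, hy⟩ : ∃ y, y = S.R ζ x := ⟨_, rfl⟩
  rw [← hy] at hne
  have hpos : 0 < ‖S.π n y‖ := norm_pos_iff.2 hne
  obtain ⟨B, hB⟩ : ∃ B, B = ‖S.π N (S.U y)‖ := ⟨_, rfl⟩
  have hB0 : 0 ≤ B := hB ▸ norm_nonneg _
  obtain ⟨c, hc, hcd⟩ := Metric.mem_closure_iff.1 h (min ε (‖S.π n y‖ / (M * B + 1)))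
    (lt_min hε (by positivity))
  rw [dist_comm, dist_eq_norm] at hcd
  have hc1 := hcd.trans_le (min_le_left _ _)
  have hc2 := hcd.trans_le (min_le_right _ _)
  have hxy : y - ζ • S.U y = x := by rw [hy]; exact S.right ζ hζ x
  have h1 : S.R c (y - c • S.U y) = y := S.left c hc.1 y
  have h2 : y - c • S.U y = x + (ζ - c) • S.U y := by
    rw [← hxy, sub_smul]; abel
  have key : ‖S.π n y‖ ≤ M * (‖c - ζ‖ * B) := by
    have := hb c hc hc1 (y - c • S.U y)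
    rw [h1, h2, map_add, hx, zero_add, map_smul, norm_smul, norm_sub_rev, ← hB] at this
    exact this
  have h3 : ‖c - ζ‖ * (M * B + 1) < ‖S.π n y‖ := (lt_div_iff₀ (by positivity)).1 hc2
  have h4 : 0 ≤ ‖c - ζ‖ := norm_nonneg _
  nlinarith

theorem F_lim (n N : ℕ) {ζ : ℂ} (hζ : ‖ζ‖ < S.δ) (x : E) :
    Tendsto (fun c => S.π n (S.R c x)) (𝓝[A S n N] ζ) (𝓝 (S.π n (S.R ζ x))) := by
  obtain ⟨ε, hε, M, hM, hb⟩ := local_bound S n N hζ
  rw [tendsto_iff_norm_sub_tendsto_zero]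
  have hz : Tendsto (fun c : ℂ => ‖c - ζ‖ * (M * ‖S.π N (S.U (S.R ζ x))‖)) (𝓝[A S n N] ζ)
      (𝓝 0) := by
    have hcont : Continuous (fun c : ℂ => ‖c - ζ‖ * (M * ‖S.π N (S.U (S.R ζ x))‖)) := by
      fun_prop
    have := hcont.tendsto ζ
    simp only [sub_self, norm_zero, zero_mul] at this
    exact this.mono_left nhdsWithin_le_nhds
  refine squeeze_zero' (Eventually.of_forall fun _ => norm_nonneg _) ?_ hz
  have h1 : ∀ᶠ c in 𝓝[A S n N] ζ, c ∈ A S n N := self_mem_nhdsWithin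
  have h2 : ∀ᶠ c in 𝓝[A S n N] ζ, ‖c - ζ‖ < ε := by
    apply nhdsWithin_le_nhds
    filter_upwards [Metric.ball_mem_nhds ζ hε] with c hc
    rwa [Metric.mem_ball, dist_eq_norm] at hc
  filter_upwards [h1, h2] with c hc hc2
  rw [res S hc.1 hζ x, map_add, map_smul, add_sub_cancel_left, norm_smul]
  exact mul_le_mul_of_nonneg_left (hb c hc hc2 _) (norm_nonneg _)

theorem F_diff (n N : ℕ) {ζ : ℂ} (h : ζ ∈ interior (A S n N)) (x : E) :
    DifferentiableAt ℂ (fun c => S.π n (S.R c x)) ζ := by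
  have hζA := interior_subset h
  have hnh : 𝓝[A S n N] ζ = 𝓝 ζ := nhdsWithin_eq_nhds.2 (mem_interior_iff_mem_nhds.1 h)
  have h1 := F_lim S n N hζA.1 (S.U (S.R ζ x))
  rw [hnh] at h1
  have : HasDerivAt (fun c => S.π n (S.R c x)) (S.π n (S.R ζ (S.U (S.R ζ x)))) ζ := by
    rw [hasDerivAt_iff_tendsto_slope]
    refine (h1.mono_left nhdsWithin_le_nhds).congr' ?_
    have h2 : ∀ᶠ c in 𝓝[≠] ζ, c ∈ A S n N :=
      nhdsWithin_le_nhds (mem_interior_iff_mem_nhds.1 h)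
    have h3 : ∀ᶠ c in 𝓝[≠] ζ, c ≠ ζ := self_mem_nhdsWithin
    filter_upwards [h2, h3] with c hc hc3
    rw [slope_def_module]
    have e : S.π n (S.R c x) = S.π n (S.R ζ x) + (c - ζ) • S.π n (S.R c (S.U (S.R ζ x))) := by
      conv_lhs => rw [res S hc.1 hζA.1 x, map_add, map_smul]
    rw [e, add_sub_cancel_left, smul_smul, inv_mul_cancel₀ (sub_ne_zero.2 hc3), one_smul]
  exact this.differentiableAt

theorem F_diffOn (n : ℕ) {W : Set ℂ} (hW : W ⊆ ⋃ N, interior (A S n N)) (x : E) :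
    DifferentiableOn ℂ (fun c => S.π n (S.R c x)) W := by
  intro c hc
  obtain ⟨M, hM⟩ := mem_iUnion.1 (hW hc)
  exact (F_diff S n M hM x).differentiableWithinAt

theorem sub_of_preconnected [∀ n, CompleteSpace (X n)] (n : ℕ) {W : Set ℂ} (hWo : IsOpen W) (hWc : IsPreconnected W)
    (hW : W ⊆ ⋃ N, interior (A S n N)) {N : ℕ} {w : ℂ} (hw : w ∈ W)
    (hwN : w ∈ interior (A S n N)) : W ⊆ A S n N := by
  intro v hv
  have hvD : ‖v‖ < S.δ := by
    obtain ⟨M, hM⟩ := mem_iUnion.1 (hW hv)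
    exact (interior_subset hM).1
  refine ⟨hvD, fun x hx => ?_⟩
  have ha := (F_diffOn S n hW x).analyticOnNhd hWo
  refine ha.eqOn_zero_of_preconnected_of_eventuallyEq_zero hWc hw ?_ hv
  filter_upwards [isOpen_interior.mem_nhds hwN] with c hc
  exact (interior_subset hc).2 x hx

/-- a function which is holomorphic on `V`, continuous on its closure and zero on the part of the
boundary which lies in an open disc containing `V` with centre off the closure of `V` is zero -/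
theorem zero_of_boundary {Y : Type*} [NormedAddCommGroup Y] [NormedSpace ℂ Y] {f : ℂ → Y}
    {V : Set ℂ} {a : ℂ} {ρ : ℝ} (hρ : 0 < ρ) (hV : V ⊆ ball a ρ) (ha : a ∉ closure V)
    (hf : DifferentiableOn ℂ f V) (hc : ContinuousOn f (closure V))
    (hb : ∀ z ∈ frontier V, ‖z - a‖ < ρ → f z = 0) : ∀ z ∈ V, f z = 0 := by
  have hbd : Bornology.IsBounded V := isBounded_ball.subset hV
  have hcomp : IsCompact (closure V) := hbd.isCompact_closure
  obtain ⟨m, hm⟩ := hcomp.exists_bound_of_continuousOn hc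
  intro z hz
  have hza : z ≠ a := fun h => ha (h ▸ subset_closure hz)
  have hza' : 0 < ‖z - a‖ := norm_pos_iff.2 (sub_ne_zero.2 hza)
  have hzρ : ‖z - a‖ < ρ := by
    have := hV hz
    rwa [Metric.mem_ball, dist_eq_norm] at this
  have hm0 : 0 ≤ m := (norm_nonneg _).trans (hm z (subset_closure hz))
  have key : ∀ j : ℕ, ‖f z‖ ≤ m * (‖z - a‖ / ρ) ^ j := by
    intro j
    have hne : ∀ w ∈ closure V, w - a ≠ 0 := by
      intro w hw h
      exact ha (by rw [← sub_eq_zero.1 h]; exact hw)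
    have hd : DiffContOnCl ℂ (fun w => ((w - a)⁻¹) ^ j • f w) V := by
      refine ⟨?_, ?_⟩
      · refine DifferentiableOn.smul ?_ hf
        refine DifferentiableOn.pow (DifferentiableOn.inv (by fun_prop) ?_) _
        intro w hw
        exact hne w (subset_closure hw)
      · refine ContinuousOn.smul ?_ hc
        refine ContinuousOn.pow (ContinuousOn.inv₀ (by fun_prop) hne) _
    have hfr : ∀ w ∈ frontier V, ‖((w - a)⁻¹) ^ j • f w‖ ≤ (ρ⁻¹) ^ j * m := by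
      intro w hw
      have hwc : w ∈ closure V := frontier_subset_closure hw
      by_cases hwρ : ‖w - a‖ < ρ
      · rw [hb w hw hwρ, smul_zero, norm_zero]; positivity
      · push Not at hwρ
        rw [norm_smul, norm_pow, norm_inv]
        have h1 : ‖w - a‖⁻¹ ≤ ρ⁻¹ := inv_anti₀ hρ hwρ
        exact mul_le_mul (pow_le_pow_left₀ (by positivity) h1 j) (hm w hwc) (norm_nonneg _)
          (by positivity)
    have := Complex.norm_le_of_forall_mem_frontier_norm_le hbd hd hfr (subset_closure hz)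
    rw [norm_smul, norm_pow, norm_inv] at this
    have hp : 0 < ‖z - a‖ ^ j := by positivity
    have h2 : ‖f z‖ = ‖z - a‖ ^ j * ((‖z - a‖⁻¹) ^ j * ‖f z‖) := by
      rw [← mul_assoc, ← mul_pow, mul_inv_cancel₀ hza'.ne', one_pow, one_mul]
    calc ‖f z‖ = ‖z - a‖ ^ j * ((‖z - a‖⁻¹) ^ j * ‖f z‖) := h2
      _ ≤ ‖z - a‖ ^ j * ((ρ⁻¹) ^ j * m) := mul_le_mul_of_nonneg_left this hp.le
      _ = m * (‖z - a‖ / ρ) ^ j := by rw [div_eq_mul_inv, mul_pow]; ring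
  have hq : ‖z - a‖ / ρ < 1 := (div_lt_one hρ).2 hzρ
  have ht : Tendsto (fun j : ℕ => m * (‖z - a‖ / ρ) ^ j) atTop (𝓝 (m * 0)) :=
    (tendsto_pow_atTop_nhds_zero_of_lt_one (by positivity) hq).const_mul m
  rw [mul_zero] at ht
  have := ge_of_tendsto' ht key
  exact norm_le_zero_iff.1 this

end Pool.Agent.KS6_10.NS
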