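import Mathlib
import Pool.Agent.KS6_10.NS.Core

set_option autoImplicit false

namespace Pool.Agent.KS6_10.NS

open Set Filter Topology Metric

variable {E : Type*} [AddCommGroup E] [Module ℂ E] {X : ℕ → Type*}
    [∀ n, NormedAddCommGroup (X n)] [∀ n, NormedSpace ℂ (X n)] (S : Sys E X)
    [∀ n, CompleteSpace (X n)]

theorem disc_sub (n N : ℕ) {ζ : ℂ} {ρ : ℝ} (hD : ball ζ ρ ⊆ ball 0 S.δ)
    (hbad : ∀ c ∈ ball ζ ρ, c ∉ (⋃ N, interior (A S n N)) → c ∈ A S n N) :
    ∃ N', ball ζ ρ ⊆ A S n N' := by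
  by_cases hsub : ball ζ ρ ⊆ A S n N
  · exact ⟨N, hsub⟩
  obtain ⟨c1, hc1, hc1N⟩ := not_subset.1 hsub
  obtain ⟨O, hO⟩ : ∃ O, O = ⋃ N, interior (A S n N) := ⟨_, rfl⟩
  rw [← hO] at hbad
  have hOo : IsOpen O := by rw [hO]; exact isOpen_iUnion fun _ => isOpen_interior
  have hc1O : c1 ∈ O := by
    by_contra h
    exact hc1N (hbad c1 hc1 h)
  obtain ⟨G, hG⟩ : ∃ G, G = ball ζ ρ ∩ O := ⟨_, rfl⟩
  have hGo : IsOpen G := by rw [hG]; exact isOpen_ball.inter hOo
  obtain ⟨W, hW⟩ : ∃ W, W = connectedComponentIn G c1 := ⟨_, rfl⟩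
  have hWo : IsOpen W := by rw [hW]; exact hGo.connectedComponentIn
  have hWc : IsPreconnected W := by rw [hW]; exact isPreconnected_connectedComponentIn
  have hc1G : c1 ∈ G := by rw [hG]; exact ⟨hc1, hc1O⟩
  have hc1W : c1 ∈ W := by rw [hW]; exact mem_connectedComponentIn hc1G
  have hWG : W ⊆ G := by rw [hW]; exact connectedComponentIn_subset G c1
  have hGO : G ⊆ O := by rw [hG]; exact inter_subset_right
  have hWO : W ⊆ ⋃ N, interior (A S n N) := by
    rw [← hO]; exact hWG.trans hGO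
  obtain ⟨N1, hN1⟩ := mem_iUnion.1 (hWO hc1W)
  have hWA : W ⊆ A S n N1 := sub_of_preconnected S n hWo hWc hWO hc1W hN1
  -- points of `O` in the closure of `W`
  have hcl : ∀ v ∈ ball ζ ρ, v ∈ closure W → v ∈ O → v ∈ W := by
    intro v hv hvW hvO
    have hvG : v ∈ G := by rw [hG]; exact ⟨hv, hvO⟩
    have h1 : IsOpen (connectedComponentIn G v) := hGo.connectedComponentIn
    obtain ⟨u, hu1, hu2⟩ := mem_closure_iff.1 hvW _ h1 (mem_connectedComponentIn hvG)
    have e1 := connectedComponentIn_eq hu1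
    rw [hW] at hu2
    have e2 := connectedComponentIn_eq hu2
    rw [hW, e2, ← e1]
    exact mem_connectedComponentIn hvG
  have hD' : ∀ v ∈ ball ζ ρ, ‖v‖ < S.δ := by
    intro v hv
    simpa using hD hv
  have hfill : ball ζ ρ ⊆ closure W := by
    by_contra hne
    obtain ⟨a0, ha0, ha0W⟩ := not_subset.1 hne
    have hex : ∃ c ∈ ball ζ ρ, c ∈ closure W ∧ c ∈ closure (ball ζ ρ \ closure W) := by
      by_contra hcon
      push Not at hcon
      have hpre : IsPreconnected (ball ζ ρ) := (convex_ball ζ ρ).isPreconnected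
      obtain ⟨p, hp, hp1, hp2⟩ := hpre (closure (ball ζ ρ \ closure W))ᶜ (closure W)ᶜ
        isClosed_closure.isOpen_compl isClosed_closure.isOpen_compl
        (by
          intro p hp
          by_cases h : p ∈ closure W
          · exact Or.inl (hcon p hp h)
          · exact Or.inr h)
        ⟨c1, hc1, hcon c1 hc1 (subset_closure hc1W)⟩ ⟨a0, ha0, ha0W⟩
      exact hp1 (subset_closure ⟨hp, hp2⟩)
    obtain ⟨c, hcb, hcW, hcV⟩ := hex
    obtain ⟨r, hr, hrb⟩ := Metric.isOpen_iff.1 isOpen_ball c hcb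
    obtain ⟨a, ⟨hab, haW⟩, had⟩ := Metric.mem_closure_iff.1 hcV (r / 2) (by positivity)
    have hcb2 : closedBall a (r / 2) ⊆ ball ζ ρ := by
      refine subset_trans ?_ hrb
      intro y hy
      rw [Metric.mem_ball]
      rw [Metric.mem_closedBall] at hy
      calc dist y c ≤ dist y a + dist a c := dist_triangle _ _ _
        _ < r := by rw [dist_comm a c]; linarith
    obtain ⟨V, hV⟩ : ∃ V, V = W ∩ ball a (r / 2) := ⟨_, rfl⟩
    have hVo : IsOpen V := by rw [hV]; exact hWo.inter isOpen_ball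
    obtain ⟨w0, hw0a, hw0W⟩ := mem_closure_iff.1 hcW (ball a (r / 2)) isOpen_ball
      (by rw [Metric.mem_ball]; exact had)
    have hw0V : w0 ∈ V := by rw [hV]; exact ⟨hw0W, hw0a⟩
    have hVW : V ⊆ W := by rw [hV]; exact inter_subset_left
    have hVb : V ⊆ ball a (r / 2) := by rw [hV]; exact inter_subset_right
    have hclV : closure V ⊆ closure W := closure_mono hVW
    have hclb : closure V ⊆ closedBall a (r / 2) :=
      closure_minimal (hVb.trans ball_subset_closedBall) isClosed_closedBall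
    have hclA : closure V ⊆ A S n N1 := by
      intro z hz
      exact A_closed S n N1 (hD' z (hcb2 (hclb hz))) (closure_mono (hVW.trans hWA) hz)
    apply hc1N
    refine ⟨hD' c1 hc1, fun x hx => ?_⟩
    have hz : ∀ z ∈ V, S.π n (S.R z x) = 0 := by
      refine zero_of_boundary (a := a) (ρ := r / 2) (by positivity) hVb (fun h => haW (hclV h))
        (F_diffOn S n (hVW.trans hWO) x) ?_ ?_
      · intro z hz
        exact (F_lim S n N1 (hclA hz).1 x).mono_left (nhdsWithin_mono _ hclA)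
      · intro z hz hza
        have hzc : z ∈ closure V := frontier_subset_closure hz
        have hzV : z ∉ V := by
          have := hz.2
          rwa [hVo.interior_eq] at this
        have hzb : z ∈ ball a (r / 2) := by rwa [Metric.mem_ball, dist_eq_norm]
        have hzW : z ∉ W := fun h => hzV (by rw [hV]; exact ⟨h, hzb⟩)
        have hzζ : z ∈ ball ζ ρ := hcb2 (hclb hzc)
        have hzO : z ∉ O := fun h => hzW (hcl z hzζ (hclV hzc) h)
        exact (hbad z hzζ hzO).2 x hx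
    have ha := (F_diffOn S n hWO x).analyticOnNhd hWo
    refine ha.eqOn_zero_of_preconnected_of_eventuallyEq_zero hWc (hVW hw0V) ?_ hc1W
    filter_upwards [hVo.mem_nhds hw0V] with z hz'
    exact hz z hz'
  refine ⟨max N N1, fun v hv => ?_⟩
  by_cases hvO : v ∈ O
  · exact A_mono S n (le_max_right _ _) (hWA (hcl v hv (hfill hv) hvO))
  · exact A_mono S n (le_max_left _ _) (hbad v hv hvO)

theorem cover (n : ℕ) : ball (0 : ℂ) S.δ ⊆ ⋃ N, interior (A S n N) := by
  by_contra hcon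
  obtain ⟨ζ0, hζ0, hζ0O⟩ := not_subset.1 hcon
  obtain ⟨O, hO⟩ : ∃ O, O = ⋃ N, interior (A S n N) := ⟨_, rfl⟩
  rw [← hO] at hζ0O
  have hOo : IsOpen O := by rw [hO]; exact isOpen_iUnion fun _ => isOpen_interior
  obtain ⟨ρ1, hρ1, hρb⟩ := Metric.isOpen_iff.1 isOpen_ball ζ0 hζ0
  obtain ⟨ρ0, hρ0, hρ01⟩ : ∃ ρ0, 0 < ρ0 ∧ ρ0 < ρ1 := ⟨ρ1 / 2, by positivity, by linarith⟩
  have hcb : closedBall ζ0 ρ0 ⊆ ball 0 S.δ := (closedBall_subset_ball hρ01).trans hρb
  obtain ⟨K, hK⟩ : ∃ K, K = closedBall ζ0 ρ0 \ O := ⟨_, rfl⟩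
  have hKc : IsClosed K := by rw [hK]; exact isClosed_closedBall.sdiff hOo
  have : CompleteSpace K := hKc.completeSpace_coe
  have hζ0K : ζ0 ∈ K := by rw [hK]; exact ⟨mem_closedBall_self hρ0.le, hζ0O⟩
  have hKD : ∀ p ∈ K, ‖p‖ < S.δ := by
    intro p hp
    rw [hK] at hp
    simpa using hcb hp.1
  have hKO : ∀ p ∈ K, p ∉ O := by
    intro p hp
    rw [hK] at hp
    exact hp.2
  let f : ℕ → Set K := fun N => {p | (p : ℂ) ∈ A S n N}
  have hfc : ∀ N, IsClosed (f N) := by
    intro N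
    rw [← closure_subset_iff_isClosed]
    intro p hp
    apply A_closed S n N (hKD p p.2)
    have h1 : (p : ℂ) ∈ (fun q : K => (q : ℂ)) '' closure (f N) := ⟨p, hp, rfl⟩
    have h2 := image_closure_subset_closure_image (s := f N) continuous_subtype_val h1
    refine closure_mono ?_ h2
    rintro _ ⟨q, hq, rfl⟩
    exact hq
  have hfu : ⋃ N, f N = univ := by
    rw [eq_univ_iff_forall]
    intro p
    obtain ⟨N, hN⟩ := exists_A S n (hKD p p.2)
    exact mem_iUnion.2 ⟨N, hN⟩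
  have hdense := dense_iUnion_interior_of_closed hfc hfu
  obtain ⟨p, hpi, hpb⟩ := hdense.exists_mem_open (U := {p : K | dist (p : ℂ) ζ0 < ρ0})
    (isOpen_lt (by fun_prop) continuous_const) ⟨⟨ζ0, hζ0K⟩, by simpa using hρ0⟩
  have hpb' : dist (p : ℂ) ζ0 < ρ0 := hpb
  obtain ⟨N, hN⟩ := mem_iUnion.1 hpi
  obtain ⟨ε, hε, hεb⟩ := Metric.mem_nhds_iff.1 (mem_interior_iff_mem_nhds.1 hN)
  obtain ⟨ρ, hρ⟩ : ∃ ρ, ρ = min ε (ρ0 - dist (p : ℂ) ζ0) := ⟨_, rfl⟩
  have hρ0' : 0 < ρ := by rw [hρ]; exact lt_min hε (by linarith)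
  have hsub0 : ball (p : ℂ) ρ ⊆ closedBall ζ0 ρ0 := by
    intro c hc
    rw [Metric.mem_ball] at hc
    rw [Metric.mem_closedBall]
    have h1 : ρ ≤ ρ0 - dist (p : ℂ) ζ0 := by rw [hρ]; exact min_le_right _ _
    have h2 := dist_triangle c (p : ℂ) ζ0
    linarith
  obtain ⟨N', hN'⟩ := disc_sub S n N (ζ := (p : ℂ)) (ρ := ρ) (hsub0.trans hcb) (by
    intro c hc hcO
    rw [← hO] at hcO
    have hcK : c ∈ K := by rw [hK]; exact ⟨hsub0 hc, hcO⟩
    have : (⟨c, hcK⟩ : K) ∈ ball p ε := by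
      rw [Metric.mem_ball] at hc ⊢
      have h1 : ρ ≤ ε := by rw [hρ]; exact min_le_left _ _
      exact hc.trans_le h1
    exact hεb this)
  have hpO : (p : ℂ) ∈ O := by
    rw [hO]
    refine mem_iUnion.2 ⟨N', ?_⟩
    rw [mem_interior_iff_mem_nhds]
    exact Filter.mem_of_superset (ball_mem_nhds _ hρ0') hN'
  exact hKO p p.2 hpO

omit [∀ n, CompleteSpace (X n)] in
theorem F_step (x : E) {c : ℂ} (hc : ‖c‖ < S.δ) : S.R c x = x + c • S.R c (S.U x) := by
  have h0 : ‖(0 : ℂ)‖ < S.δ := by simpa using S.hδ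
  have h1 : S.R 0 x = x := by
    have := S.left 0 h0 x
    simpa using this
  have := res S hc h0 x
  rwa [h1, sub_zero] at this

/-- the resolvent is holomorphic in the disc and its Taylor coefficients are the iterates -/
theorem coeff (n : ℕ) {r : ℝ} (hr : 0 < r) (hrδ : r < S.δ) (k : ℕ) : ∀ x : E,
    (∮ z in C(0, r), (z - 0) ^ (-(k + 1 : ℤ)) • S.π n (S.R z x)) =
      (2 * Real.pi * Complex.I : ℂ) • S.π n ((S.U ^ k) x) := by
  have hd : ∀ x, DifferentiableOn ℂ (fun c => S.π n (S.R c x)) (ball 0 S.δ) := fun x =>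
    F_diffOn S n (cover S n) x
  have hsub : closedBall (0 : ℂ) r ⊆ ball 0 S.δ := closedBall_subset_ball hrδ
  have hdc : ∀ x, DiffContOnCl ℂ (fun c => S.π n (S.R c x)) (ball 0 r) := by
    intro x
    refine DifferentiableOn.diffContOnCl ?_
    rw [closure_ball _ hr.ne']
    exact (hd x).mono hsub
  have hsph : sphere (0 : ℂ) r ⊆ closedBall 0 r := sphere_subset_closedBall
  have hne : ∀ z ∈ sphere (0 : ℂ) r, z - 0 ≠ 0 := by
    intro z hz
    rw [sub_zero]
    intro h
    rw [h] at hz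
    simp at hz
    exact hr.ne hz
  have hcp : ∀ j : ℤ, ContinuousOn (fun z : ℂ => (z - 0) ^ j) (sphere 0 r) := by
    intro j
    exact ContinuousOn.zpow₀ (by fun_prop) j (fun z hz => Or.inl (hne z hz))
  have hcF : ∀ x, ContinuousOn (fun c => S.π n (S.R c x)) (sphere 0 r) := fun x =>
    ((hd x).continuousOn.mono hsub).mono hsph
  induction k with
  | zero =>
    intro x
    have h0 : ‖(0 : ℂ)‖ < S.δ := by simpa using S.hδ
    have h1 : S.R 0 x = x := by
      have := S.left 0 h0 x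
      simpa using this
    have := (hdc x).circleIntegral_sub_inv_smul (w := 0) (mem_ball_self hr)
    simp only [h1] at this
    simp only [Nat.cast_zero, zero_add, zpow_neg, zpow_one, pow_zero, Module.End.one_apply]
    exact this
  | succ k ih =>
    intro x
    have e1 : (∮ z in C(0, r), (z - 0) ^ (-((k + 1 : ℕ) + 1 : ℤ)) • S.π n (S.R z x)) =
        ∮ z in C(0, r), ((z - 0) ^ (-((k + 1 : ℕ) + 1 : ℤ)) • S.π n x +
          (z - 0) ^ (-(k + 1 : ℤ)) • S.π n (S.R z (S.U x))) := by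
      apply circleIntegral.integral_congr hr.le
      intro z hz
      simp only
      have hzδ : ‖z‖ < S.δ := by simpa using hsub (hsph hz)
      conv_lhs => rw [F_step S x hzδ]
      rw [map_add, map_smul, smul_add, smul_smul]
      congr 2
      have : (z - 0) ^ (-(k + 1 : ℤ)) = (z - 0) ^ (-((k + 1 : ℕ) + 1 : ℤ)) * (z - 0) ^ (1 : ℤ) := by
        rw [← zpow_add₀ (hne z hz)]
        congr 1
      rw [this, zpow_one, sub_zero]
    rw [e1, circleIntegral.integral_add, circleIntegral.integral_smul_const,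
      circleIntegral.integral_sub_zpow_of_ne, zero_smul, zero_add, ih (S.U x), pow_succ,
      Module.End.mul_apply]
    · omega
    · exact ((hcp _).smul continuousOn_const).circleIntegrable hr.le
    · exact ((hcp _).smul (hcF _)).circleIntegrable hr.le

theorem coeff_bound (n : ℕ) {r : ℝ} (hr : 0 < r) (hrδ : r < S.δ) (x : E) :
    ∃ M : ℝ, ∀ k : ℕ, r ^ k * ‖S.π n ((S.U ^ k) x)‖ ≤ M := by
  have hd : DifferentiableOn ℂ (fun c => S.π n (S.R c x)) (ball 0 S.δ) :=
    F_diffOn S n (cover S n) x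
  have hsub : sphere (0 : ℂ) r ⊆ ball 0 S.δ :=
    sphere_subset_closedBall.trans (closedBall_subset_ball hrδ)
  obtain ⟨M, hM⟩ := (isCompact_sphere (0 : ℂ) r).exists_bound_of_continuousOn
    (hd.continuousOn.mono hsub)
  refine ⟨M, fun k => ?_⟩
  have h1 := coeff S n hr hrδ k x
  have h2 : ‖∮ z in C(0, r), (z - 0) ^ (-(k + 1 : ℤ)) • S.π n (S.R z x)‖ ≤
      2 * Real.pi * r * (r ^ (-(k + 1 : ℤ)) * M) := by
    apply circleIntegral.norm_integral_le_of_norm_le_const hr.le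
    intro z hz
    rw [norm_smul, norm_zpow, sub_zero]
    have hz' : ‖z‖ = r := by simpa using hz
    rw [hz']
    exact mul_le_mul_of_nonneg_left (hM z hz) (by positivity)
  rw [h1, norm_smul] at h2
  have h3 : ‖(2 * Real.pi * Complex.I : ℂ)‖ = 2 * Real.pi := by
    simp [Real.pi_pos.le]
  rw [h3] at h2
  have h4 : r * r ^ (-(k + 1 : ℤ)) = (r ^ k)⁻¹ := by
    rw [zpow_neg, ← Nat.cast_succ, zpow_natCast, pow_succ]
    field_simp
  have h5 : 2 * Real.pi * ‖S.π n ((S.U ^ k) x)‖ ≤ 2 * Real.pi * ((r ^ k)⁻¹ * M) := by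
    calc _ ≤ _ := h2
      _ = _ := by rw [← h4]; ring
  have h6 := le_of_mul_le_mul_left h5 (by positivity)
  calc r ^ k * ‖S.π n ((S.U ^ k) x)‖ ≤ r ^ k * ((r ^ k)⁻¹ * M) :=
        mul_le_mul_of_nonneg_left h6 (by positivity)
    _ = M := by rw [← mul_assoc, mul_inv_cancel₀ (by positivity), one_mul]

end Pool.Agent.KS6_10.NS
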