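import Mathlib

/-!
# Projective limits of sequences of Banach spaces with surjective linking maps; an open mapping
theorem
-/

set_option autoImplicit false

namespace Pool.Agent.KS6_10.NS

open Set Filter Topology

variable {𝕜 : Type*} [RCLike 𝕜] {X : ℕ → Type*} [∀ n, NormedAddCommGroup (X n)]
    [∀ n, NormedSpace 𝕜 (X n)]

/-- The projective limit of `X 0 ← X 1 ← X 2 ← …` with the linking maps `r n`, as a subspace of
the product of the spaces `X n`. -/
def ProjLim (r : ∀ n, X (n + 1) →L[𝕜] X n) : Submodule 𝕜 (∀ n, X n) where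
  carrier := {x | ∀ n, r n (x (n + 1)) = x n}
  add_mem' := by
    intro a b ha hb n
    simp only [Pi.add_apply, map_add]
    rw [ha n, hb n]
  zero_mem' := by
    intro n
    simp
  smul_mem' := by
    intro c a ha n
    simp only [Pi.smul_apply, map_smul]
    rw [ha n]

variable (r : ∀ n, X (n + 1) →L[𝕜] X n)

theorem mem_projLim {x : ∀ n, X n} : x ∈ ProjLim r ↔ ∀ n, r n (x (n + 1)) = x n := Iff.rfl

theorem isClosed_projLim : IsClosed (ProjLim r : Set (∀ n, X n)) := by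
  have : (ProjLim r : Set (∀ n, X n)) = ⋂ n, {x | r n (x (n + 1)) = x n} := by
    ext x
    simp [mem_projLim]
  rw [this]
  exact isClosed_iInter fun n => isClosed_eq (by fun_prop) (by fun_prop)

instance [∀ n, CompleteSpace (X n)] : CompleteSpace (ProjLim r) :=
  (isClosed_projLim r).completeSpace_coe

instance [∀ n, CompleteSpace (X n)] : BaireSpace (ProjLim r) := by
  have : TopologicalSpace.IsCompletelyPseudoMetrizableSpace (ProjLim r) :=
    (isClosed_projLim r).isCompletelyPseudoMetrizableSpace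
  infer_instance

/-- the projection to `X n` -/
def pr (n : ℕ) : ProjLim r →ₗ[𝕜] X n where
  toFun x := x.1 n
  map_add' _ _ := rfl
  map_smul' _ _ := rfl

theorem continuous_pr (n : ℕ) : Continuous (pr r n) :=
  (continuous_apply n).comp continuous_subtype_val

theorem pr_ext {x y : ProjLim r} (h : ∀ n, pr r n x = pr r n y) : x = y :=
  Subtype.ext (funext h)

theorem pr_mono (n m : ℕ) (h : n ≤ m) : ∃ K : ℝ, 0 ≤ K ∧ ∀ x, ‖pr r n x‖ ≤ K * ‖pr r m x‖ := by
  induction m, h using Nat.le_induction with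
  | base => exact ⟨1, zero_le_one, fun x => by rw [one_mul]⟩
  | succ m hm ih =>
    obtain ⟨K, hK, h⟩ := ih
    refine ⟨K * ‖r m‖, mul_nonneg hK (norm_nonneg _), fun x => ?_⟩
    have h1 : pr r m x = r m (pr r (m + 1) x) := (x.2 m).symm
    calc _ ≤ K * ‖pr r m x‖ := h x
      _ ≤ K * (‖r m‖ * ‖pr r (m + 1) x‖) := by
          rw [h1]
          exact mul_le_mul_of_nonneg_left ((r m).le_opNorm _) hK
      _ = _ := by ring

/-- the increasing sequence of seminorms -/
noncomputable def q (n : ℕ) (x : ProjLim r) : ℝ := ∑ i ∈ Finset.range (n + 1), ‖pr r i x‖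

theorem q_nonneg (n : ℕ) (x : ProjLim r) : 0 ≤ q r n x :=
  Finset.sum_nonneg fun _ _ => norm_nonneg _

theorem le_q {i n : ℕ} (h : i ≤ n) (x : ProjLim r) : ‖pr r i x‖ ≤ q r n x :=
  Finset.single_le_sum (f := fun i => ‖pr r i x‖) (fun _ _ => norm_nonneg _)
    (Finset.mem_range.2 (by omega))

theorem q_mono {n m : ℕ} (h : n ≤ m) (x : ProjLim r) : q r n x ≤ q r m x :=
  Finset.sum_le_sum_of_subset_of_nonneg (Finset.range_mono (by omega)) fun _ _ _ => norm_nonneg _

theorem q_add (n : ℕ) (x y : ProjLim r) : q r n (x + y) ≤ q r n x + q r n y := by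
  unfold q
  rw [← Finset.sum_add_distrib]
  refine Finset.sum_le_sum fun i _ => ?_
  rw [map_add]
  exact norm_add_le _ _

theorem q_sub (n : ℕ) (x y : ProjLim r) : q r n (x - y) ≤ q r n x + q r n y := by
  unfold q
  rw [← Finset.sum_add_distrib]
  refine Finset.sum_le_sum fun i _ => ?_
  rw [map_sub]
  exact norm_sub_le _ _

theorem q_smul (n : ℕ) (c : 𝕜) (x : ProjLim r) : q r n (c • x) = ‖c‖ * q r n x := by
  unfold q
  rw [Finset.mul_sum]
  refine Finset.sum_congr rfl fun i _ => ?_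
  rw [map_smul, norm_smul]

theorem q_zero (n : ℕ) : q r n 0 = 0 := by
  unfold q
  simp

theorem continuous_q (n : ℕ) : Continuous (q r n) := by
  unfold q
  exact continuous_finsetSum _ fun i _ => (continuous_pr r i).norm

theorem q_ball_mem (n : ℕ) {ε : ℝ} (hε : 0 < ε) : {x | q r n x < ε} ∈ 𝓝 (0 : ProjLim r) := by
  apply (isOpen_lt (continuous_q r n) continuous_const).mem_nhds
  simpa [q_zero] using hε

theorem exists_q_ball {V : Set (ProjLim r)} (hV : V ∈ 𝓝 (0 : ProjLim r)) :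
    ∃ m, ∃ ε : ℝ, 0 < ε ∧ ∀ x, q r m x < ε → x ∈ V := by
  rw [mem_nhds_subtype] at hV
  obtain ⟨u, hu, huV⟩ := hV
  rw [nhds_pi, Filter.mem_pi] at hu
  obtain ⟨I, hI, t, ht, htu⟩ := hu
  obtain ⟨m, hm⟩ := hI.bddAbove
  have h1 : ∀ i ∈ I, ∀ᶠ ε : ℝ in 𝓝[>] 0, ∀ a : X i, ‖a‖ < ε → a ∈ t i := by
    intro i _
    have := ht i
    simp only [ZeroMemClass.coe_zero, Pi.zero_apply] at this
    obtain ⟨ε0, hε0, h0⟩ := Metric.mem_nhds_iff.1 this
    filter_upwards [Ioo_mem_nhdsGT hε0] with ε hε a ha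
    apply h0
    rw [mem_ball_zero_iff]
    exact ha.trans hε.2
  obtain ⟨ε, hε, hε0⟩ := (((eventually_all_finite hI).2 h1).and self_mem_nhdsWithin).exists
  refine ⟨m, ε, hε0, fun x hx => huV (htu ?_)⟩
  intro i hi
  exact hε i hi _ ((le_q r (hm hi) x).trans_lt hx)

theorem bound_of_ball {Y : Type*} [NormedAddCommGroup Y] [NormedSpace 𝕜 Y]
    (f : ProjLim r →ₗ[𝕜] Y) {m : ℕ} {ε : ℝ} (hε : 0 < ε) (h : ∀ x, q r m x < ε → ‖f x‖ < 1) :
    ∀ x, ‖f x‖ ≤ ε⁻¹ * q r m x := by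
  intro x
  apply le_of_forall_gt_imp_ge_of_dense
  intro s hs
  have hs0 : 0 < s := lt_of_le_of_lt (mul_nonneg (inv_nonneg.2 hε.le) (q_nonneg r m x)) hs
  have h1 : q r m (((s⁻¹ : ℝ) : 𝕜) • x) < ε := by
    rw [q_smul, RCLike.norm_ofReal, abs_of_pos (inv_pos.2 hs0)]
    rw [inv_mul_lt_iff₀ hε] at hs
    rw [inv_mul_lt_iff₀ hs0, mul_comm]
    exact hs
  have h2 := h _ h1
  rw [map_smul, norm_smul, RCLike.norm_ofReal, abs_of_pos (inv_pos.2 hs0),
    inv_mul_lt_iff₀ hs0, mul_one] at h2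
  exact h2.le

theorem q_le (m : ℕ) : ∃ K : ℝ, 0 ≤ K ∧ ∀ x, q r m x ≤ K * ‖pr r m x‖ := by
  have h : ∀ i ∈ Finset.range (m + 1), ∃ K : ℝ, 0 ≤ K ∧ ∀ x, ‖pr r i x‖ ≤ K * ‖pr r m x‖ :=
    fun i hi => pr_mono r i m (by rw [Finset.mem_range] at hi; omega)
  choose! K hK hK' using h
  refine ⟨∑ i ∈ Finset.range (m + 1), K i, Finset.sum_nonneg hK, fun x => ?_⟩
  unfold q
  rw [Finset.sum_mul]
  exact Finset.sum_le_sum fun i hi => hK' i hi x

/-- continuous linear maps are bounded -/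
theorem bound_of_continuous (T : ProjLim r →L[𝕜] ProjLim r) (n : ℕ) :
    ∃ m, ∃ C : ℝ, 0 ≤ C ∧ ∀ x, ‖pr r n (T x)‖ ≤ C * ‖pr r m x‖ := by
  have hc : Continuous fun x => pr r n (T x) := (continuous_pr r n).comp T.continuous
  have hV : {x | ‖pr r n (T x)‖ < 1} ∈ 𝓝 (0 : ProjLim r) := by
    apply (isOpen_lt hc.norm continuous_const).mem_nhds
    simp
  obtain ⟨m, ε, hε, h⟩ := exists_q_ball r hV
  have h1 := bound_of_ball r ((pr r n).comp (T : ProjLim r →ₗ[𝕜] ProjLim r)) hε h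
  obtain ⟨K, hK, hK'⟩ := q_le r m
  refine ⟨m, ε⁻¹ * K, by positivity, fun x => ?_⟩
  calc _ ≤ ε⁻¹ * q r m x := h1 x
    _ ≤ ε⁻¹ * (K * ‖pr r m x‖) := mul_le_mul_of_nonneg_left (hK' x) (by positivity)
    _ = _ := by ring

variable [∀ n, CompleteSpace (X n)]

/-- a series whose coordinates converge absolutely converges -/
theorem exists_sum (x : ℕ → ProjLim r) (h : ∀ i, Summable fun j => ‖pr r i (x j)‖) :
    ∃ s : ProjLim r, HasSum x s := by
  have h1 : ∀ i, ∃ a : X i, HasSum (fun j => pr r i (x j)) a := fun i =>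
    ⟨_, (Summable.of_norm (h i)).hasSum⟩
  choose a ha using h1
  have ham : a ∈ ProjLim r := by
    intro n
    have h2 := (ha (n + 1)).mapL (r n)
    have h3 : (fun j => r n (pr r (n + 1) (x j))) = fun j => pr r n (x j) := by
      funext j
      exact (x j).2 n
    rw [h3] at h2
    exact h2.unique (ha n)
  refine ⟨⟨a, ham⟩, ?_⟩
  have hs : HasSum (fun j => ((x j : ProjLim r) : ∀ n, X n)) a := by
    rw [Pi.hasSum]
    exact ha
  have hind : IsInducing (Subtype.val : ProjLim r → ∀ n, X n) := IsInducing.subtypeVal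
  unfold HasSum at hs ⊢
  rw [hind.tendsto_nhds_iff]
  refine hs.congr fun s => ?_
  simp

end Pool.Agent.KS6_10.NS
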