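import Mathlib
import Pool.Agent.KS6_10.NS.Lim

/-!
# A totally divergent Neumann series on spaces of rapidly decreasing sequences
-/

set_option autoImplicit false

namespace Pool.Agent.KS6_10.NS

open Set Filter Topology BoundedContinuousFunction

variable (𝕜 : Type*) [RCLike 𝕜]

/-- `f ↦ (n ↦ a n * f (σ n))` on the bounded sequences -/
noncomputable def mulComp (a : ℤ → ℝ) (σ : ℤ → ℤ) (C : ℝ) (h : ∀ n, |a n| ≤ C) :
    (ℤ →ᵇ 𝕜) →L[𝕜] (ℤ →ᵇ 𝕜) :=
  LinearMap.mkContinuous
    { toFun := fun f => BoundedContinuousFunction.ofNormedAddCommGroupDiscrete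
        (fun n => (a n : 𝕜) * f (σ n)) (C * ‖f‖) (fun n => by
          rw [norm_mul, RCLike.norm_ofReal]
          exact mul_le_mul (h n) (f.norm_coe_le_norm _) (norm_nonneg _)
            ((abs_nonneg _).trans (h n)))
      map_add' := fun f g => by ext n; simp [mul_add]
      map_smul' := fun c f => by ext n; simp [mul_left_comm] }
    C (fun f => by
      refine (BoundedContinuousFunction.norm_le ?_).2 fun n => ?_
      · exact mul_nonneg ((abs_nonneg _).trans (h 0)) (norm_nonneg _)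
      · change ‖(a n : 𝕜) * f (σ n)‖ ≤ C * ‖f‖
        rw [norm_mul, RCLike.norm_ofReal]
        exact mul_le_mul (h n) (f.norm_coe_le_norm _) (norm_nonneg _)
            ((abs_nonneg _).trans (h n)))

theorem mulComp_apply (a : ℤ → ℝ) (σ : ℤ → ℤ) (C : ℝ) (h : ∀ n, |a n| ≤ C) (f : ℤ →ᵇ 𝕜) (n : ℤ) :
    mulComp 𝕜 a σ C h f n = (a n : 𝕜) * f (σ n) := rfl

/-- A weight on `ℤ`: at least `1`, tending to infinity in both directions, and changing by at
most a constant factor from each integer to the next. -/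
structure IsWeight (w : ℤ → ℝ) : Prop where
  one_le : ∀ n, 1 ≤ w n
  tendsto : Tendsto w cofinite atTop
  step : ∃ c : ℝ, ∀ n, w (n + 1) ≤ c * w n ∧ w n ≤ c * w (n + 1)

variable {w : ℤ → ℝ} (hw : IsWeight w)

include hw in
theorem w_pos (n : ℤ) : 0 < w n := zero_lt_one.trans_le (hw.one_le n)

include hw in
theorem inv_w_le (n : ℤ) : |(w n)⁻¹| ≤ 1 := by
  rw [abs_of_pos (inv_pos.2 (w_pos hw n))]
  exact inv_le_one_of_one_le₀ (hw.one_le n)

/-- The linking map `f ↦ f / w`. The projective limit of the constant sequence of spaces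
`ℤ →ᵇ 𝕜` of bounded sequences with these linking maps is the space of the sequences
`x : ℤ → 𝕜` such that all `w ^ k * x` are bounded: the member `k` of a thread is `w ^ k * x`. -/
noncomputable def link (_n : ℕ) : (ℤ →ᵇ 𝕜) →L[𝕜] (ℤ →ᵇ 𝕜) :=
  mulComp 𝕜 (fun n => (w n)⁻¹) id 1 (inv_w_le hw)

/-- The Fréchet space of the sequences `x : ℤ → 𝕜` for which all `w ^ k * x` are bounded. -/
noncomputable abbrev RD : Submodule 𝕜 (ℕ → (ℤ →ᵇ 𝕜)) := ProjLim (X := fun _ => ℤ →ᵇ 𝕜) (link 𝕜 hw)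

variable {𝕜}

/-- the sequence of an element -/
def ev (x : RD 𝕜 hw) (n : ℤ) : 𝕜 := x.1 0 n

theorem coord (x : RD 𝕜 hw) (k : ℕ) (n : ℤ) : x.1 k n = (w n : 𝕜) ^ k * ev hw x n := by
  induction k with
  | zero => simp [ev]
  | succ k ih =>
    have h1 : link 𝕜 hw k (x.1 (k + 1)) n = x.1 k n := by rw [x.2 k]
    unfold link at h1
    rw [mulComp_apply, ih] at h1
    have hne : (w n : 𝕜) ≠ 0 := by
      exact_mod_cast (w_pos hw n).ne'
    simp only [id] at h1
    rw [RCLike.ofReal_inv] at h1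
    rw [pow_succ, mul_assoc, mul_comm (w n : 𝕜), ← mul_assoc, ← h1]
    field_simp

theorem ext_ev {x y : RD 𝕜 hw} (h : ∀ n, ev hw x n = ev hw y n) : x = y := by
  apply Subtype.ext
  funext k
  ext n
  rw [coord, coord, h]

/-- the product `w (m - 1) * ... * w (m - j)` -/
noncomputable def PP (w : ℤ → ℝ) (m : ℤ) (j : ℕ) : ℝ := ∏ i ∈ Finset.range j, w (m - 1 - i)

include hw in
theorem PP_pos (m : ℤ) (j : ℕ) : 0 < PP w m j := Finset.prod_pos fun _ _ => w_pos hw _

include hw in
theorem PP_large (L : ℝ) (hL : 1 ≤ L) : ∃ K : ℝ, 0 < K ∧ ∀ m j, L ^ j ≤ K * PP w m j := by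
  classical
  have hfin : {n | ¬ L ≤ w n}.Finite := hw.tendsto.eventually_ge_atTop L
  refine ⟨L ^ hfin.toFinset.card, by positivity, fun m j => ?_⟩
  have h1 : ∏ _i ∈ Finset.range j, L ≤ ∏ i ∈ Finset.range j,
      (if m - 1 - (i : ℤ) ∈ hfin.toFinset then L else 1) * w (m - 1 - i) := by
    refine Finset.prod_le_prod (fun _ _ => by positivity) fun i _ => ?_
    have h := hw.one_le (m - 1 - i)
    split_ifs with hi
    · nlinarith
    · rw [one_mul]
      simpa using hi
  rw [Finset.prod_const, Finset.card_range, Finset.prod_mul_distrib] at h1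
  refine h1.trans (mul_le_mul_of_nonneg_right ?_ (PP_pos hw m j).le)
  rw [Finset.prod_ite, Finset.prod_const, Finset.prod_const_one, mul_one]
  apply pow_le_pow_right₀ hL
  apply Finset.card_le_card_of_injOn (fun i : ℕ => m - 1 - (i : ℤ))
  · intro i hi
    have := (Finset.mem_filter.1 hi).2
    exact this
  · intro i _ i' _ h
    simp only at h
    omega

/-- the operator `(U x) n = w n * x (n + 1)` -/
theorem exists_U : ∃ U : RD 𝕜 hw →L[𝕜] RD 𝕜 hw, ∀ x n, ev hw (U x) n = w n * ev hw x (n + 1) := by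
  obtain ⟨c, hc⟩ := hw.step
  have hb : ∀ (k : ℕ) (n : ℤ), |(w n / w (n + 1)) ^ (k + 1)| ≤ c ^ (k + 1) := by
    intro k n
    have h0 := w_pos hw n
    have h1 := w_pos hw (n + 1)
    rw [abs_of_pos (by positivity)]
    exact pow_le_pow_left₀ (by positivity) ((div_le_iff₀ h1).2 (hc n).2) _
  have hmem : ∀ x : RD 𝕜 hw, (fun k => mulComp 𝕜 (fun n => (w n / w (n + 1)) ^ (k + 1))
      (fun n => n + 1) (c ^ (k + 1)) (hb k) (x.1 (k + 1))) ∈ RD 𝕜 hw := by
    intro x k
    ext n
    unfold link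
    rw [mulComp_apply, mulComp_apply, mulComp_apply, coord, coord]
    have h0 : (w n : 𝕜) ≠ 0 := by exact_mod_cast (w_pos hw n).ne'
    have h1 : (w (n + 1) : 𝕜) ≠ 0 := by exact_mod_cast (w_pos hw (n + 1)).ne'
    simp only [id]
    push_cast
    simp only [div_pow]
    field_simp
    ring
  let U0 : RD 𝕜 hw →ₗ[𝕜] RD 𝕜 hw :=
    { toFun := fun x => ⟨_, hmem x⟩
      map_add' := fun x y => by
        apply Subtype.ext
        funext k
        simp
      map_smul' := fun a x => by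
        apply Subtype.ext
        funext k
        simp }
  have hU0 : Continuous U0 := by
    apply Continuous.subtype_mk
    refine continuous_pi fun k => ?_
    exact (ContinuousLinearMap.continuous _).comp
      ((continuous_apply (k + 1)).comp continuous_subtype_val)
  refine ⟨⟨U0, hU0⟩, fun x n => ?_⟩
  change mulComp 𝕜 (fun n => (w n / w (n + 1)) ^ (0 + 1)) (fun n => n + 1) (c ^ (0 + 1)) (hb 0)
    (x.1 (0 + 1)) n = _
  rw [mulComp_apply, coord]
  have h1 : (w (n + 1) : 𝕜) ≠ 0 := by exact_mod_cast (w_pos hw (n + 1)).ne'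
  push_cast
  field_simp

/-- the operator `(V y) n = y (n - 1) / w (n - 1)` -/
theorem exists_V : ∃ V : RD 𝕜 hw →L[𝕜] RD 𝕜 hw,
    ∀ x n, ev hw (V x) n = ev hw x (n - 1) / w (n - 1) := by
  obtain ⟨c, hc⟩ := hw.step
  have hb : ∀ (k : ℕ) (n : ℤ), |(w n / w (n - 1)) ^ k * (w (n - 1))⁻¹| ≤ c ^ k := by
    intro k n
    have h0 := w_pos hw n
    have h1 := w_pos hw (n - 1)
    rw [abs_of_pos (by positivity)]
    have h2 := (hc (n - 1)).1
    rw [sub_add_cancel] at h2
    have h3 : (w n / w (n - 1)) ^ k ≤ c ^ k :=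
      pow_le_pow_left₀ (by positivity) ((div_le_iff₀ h1).2 h2) _
    calc _ ≤ (w n / w (n - 1)) ^ k * 1 := by
          apply mul_le_mul_of_nonneg_left _ (by positivity)
          exact inv_le_one_of_one_le₀ (hw.one_le _)
      _ ≤ c ^ k := by rwa [mul_one]
  have hmem : ∀ x : RD 𝕜 hw, (fun k => mulComp 𝕜 (fun n => (w n / w (n - 1)) ^ k * (w (n - 1))⁻¹)
      (fun n => n - 1) (c ^ k) (hb k) (x.1 k)) ∈ RD 𝕜 hw := by
    intro x k
    ext n
    unfold link
    rw [mulComp_apply, mulComp_apply, mulComp_apply, coord, coord]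
    have h0 : (w n : 𝕜) ≠ 0 := by exact_mod_cast (w_pos hw n).ne'
    have h1 : (w (n - 1) : 𝕜) ≠ 0 := by exact_mod_cast (w_pos hw (n - 1)).ne'
    simp only [id]
    push_cast
    simp only [div_pow]
    field_simp
    ring
  let V0 : RD 𝕜 hw →ₗ[𝕜] RD 𝕜 hw :=
    { toFun := fun x => ⟨_, hmem x⟩
      map_add' := fun x y => by
        apply Subtype.ext
        funext k
        simp
      map_smul' := fun a x => by
        apply Subtype.ext
        funext k
        simp }
  have hV0 : Continuous V0 := by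
    apply Continuous.subtype_mk
    refine continuous_pi fun k => ?_
    exact (ContinuousLinearMap.continuous _).comp
      ((continuous_apply k).comp continuous_subtype_val)
  refine ⟨⟨V0, hV0⟩, fun x n => ?_⟩
  change mulComp 𝕜 (fun n => (w n / w (n - 1)) ^ 0 * (w (n - 1))⁻¹) (fun n => n - 1) (c ^ 0) (hb 0)
    (x.1 0) n = _
  rw [mulComp_apply]
  simp only [pow_zero, one_mul, ev]
  push_cast
  rw [mul_comm, div_eq_mul_inv]

include hw in
theorem w_pow_le {c : ℝ} (hc : ∀ n, w (n + 1) ≤ c * w n ∧ w n ≤ c * w (n + 1)) (hc1 : 1 ≤ c)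
    (k : ℕ) (m : ℤ) (j : ℕ) : w m ^ k ≤ (c ^ k) ^ j * w (m - j) ^ k := by
  have h : ∀ j : ℕ, w m ≤ c ^ j * w (m - j) := by
    intro j
    induction j with
    | zero => simp
    | succ j ih =>
      have h1 := (hc (m - (j + 1 : ℕ))).1
      have e : m - ((j + 1 : ℕ) : ℤ) + 1 = m - j := by push_cast; ring
      rw [e] at h1
      calc w m ≤ c ^ j * w (m - j) := ih
        _ ≤ c ^ j * (c * w (m - (j + 1 : ℕ))) := mul_le_mul_of_nonneg_left h1 (by positivity)
        _ = _ := by rw [pow_succ]; ring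
  calc w m ^ k ≤ (c ^ j * w (m - j)) ^ k := pow_le_pow_left₀ (w_pos hw m).le (h j) k
    _ = _ := by rw [mul_pow, ← pow_mul, ← pow_mul, mul_comm j k]

theorem ev_iterate_V {V : RD 𝕜 hw →L[𝕜] RD 𝕜 hw}
    (hV : ∀ x n, ev hw (V x) n = ev hw x (n - 1) / w (n - 1)) (j : ℕ) (x : RD 𝕜 hw) (m : ℤ) :
    ev hw (V^[j] x) m = ev hw x (m - j) / PP w m j := by
  induction j generalizing x with
  | zero => simp [PP]
  | succ j ih =>
    rw [Function.iterate_succ_apply, ih (V x), hV, PP, PP, Finset.prod_range_succ]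
    have e1 : m - (j : ℤ) - 1 = m - ((j + 1 : ℕ) : ℤ) := by push_cast; ring
    have e2 : m - 1 - (j : ℤ) = m - ((j + 1 : ℕ) : ℤ) := by push_cast; ring
    rw [e1, e2]
    push_cast
    rw [div_div, mul_comm]

/-- the iterates of `V` decay faster than every geometric sequence -/
theorem V_decay {V : RD 𝕜 hw →L[𝕜] RD 𝕜 hw}
    (hV : ∀ x n, ev hw (V x) n = ev hw x (n - 1) / w (n - 1)) (k : ℕ) (a : ℝ) (ha : 0 ≤ a) :
    ∃ K : ℝ, 0 < K ∧ ∀ j x, a ^ j * ‖pr _ k (V^[j] x)‖ ≤ K * (1 / 2) ^ j * ‖pr _ k x‖ := by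
  obtain ⟨c0, hc0⟩ := hw.step
  obtain ⟨c, hc1, hc⟩ : ∃ c : ℝ, 1 ≤ c ∧ ∀ n, w (n + 1) ≤ c * w n ∧ w n ≤ c * w (n + 1) := by
    refine ⟨max 1 c0, le_max_left _ _, fun n => ⟨?_, ?_⟩⟩
    · exact (hc0 n).1.trans (mul_le_mul_of_nonneg_right (le_max_right _ _) (w_pos hw _).le)
    · exact (hc0 n).2.trans (mul_le_mul_of_nonneg_right (le_max_right _ _) (w_pos hw _).le)
  obtain ⟨K, hK, h⟩ := PP_large hw (2 * (a * c ^ k) + 1) (by
    have : 0 ≤ a * c ^ k := by positivity
    linarith)
  refine ⟨K, hK, fun j x => ?_⟩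
  have hnorm : ‖pr _ k (V^[j] x)‖ ≤ K * (1 / (2 * (a * c ^ k) + 1)) ^ j * (c ^ k) ^ j * ‖pr _ k x‖ := by
    refine (BoundedContinuousFunction.norm_le (by positivity)).2 fun m => ?_
    have h1 : pr _ k (V^[j] x) m = (w m : 𝕜) ^ k * (ev hw x (m - j) / PP w m j) := by
      rw [← ev_iterate_V hw hV]
      exact coord hw _ k m
    have h2 : ‖pr _ k x (m - j)‖ ≤ ‖pr _ k x‖ := (pr _ k x).norm_coe_le_norm _
    have h3 : pr _ k x (m - j) = (w (m - j) : 𝕜) ^ k * ev hw x (m - j) := coord hw x k (m - j)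
    have hP := PP_pos hw m j
    rw [h1, norm_mul, norm_div, norm_pow, RCLike.norm_ofReal, RCLike.norm_ofReal,
      abs_of_pos (w_pos hw m), abs_of_pos hP]
    rw [h3, norm_mul, norm_pow, RCLike.norm_ofReal, abs_of_pos (w_pos hw _)] at h2
    have h4 := h m j
    have h5 : 1 / PP w m j ≤ K * (1 / (2 * (a * c ^ k) + 1)) ^ j := by
      rw [one_div_pow, div_le_iff₀ hP, mul_one_div, div_mul_eq_mul_div, le_div_iff₀ (by positivity)]
      linarith
    calc w m ^ k * (‖ev hw x (m - j)‖ / PP w m j)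
        = (1 / PP w m j) * (w m ^ k * ‖ev hw x (m - j)‖) := by ring
      _ ≤ (1 / PP w m j) * ((c ^ k) ^ j * w (m - j) ^ k * ‖ev hw x (m - j)‖) := by
          apply mul_le_mul_of_nonneg_left _ (by positivity)
          exact mul_le_mul_of_nonneg_right (w_pow_le hw hc hc1 k m j) (norm_nonneg _)
      _ ≤ (1 / PP w m j) * ((c ^ k) ^ j * ‖pr _ k x‖) := by
          apply mul_le_mul_of_nonneg_left _ (by positivity)
          rw [mul_assoc]
          exact mul_le_mul_of_nonneg_left h2 (by positivity)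
      _ ≤ (K * (1 / (2 * (a * c ^ k) + 1)) ^ j) * ((c ^ k) ^ j * ‖pr _ k x‖) :=
          mul_le_mul_of_nonneg_right h5 (by positivity)
      _ = _ := by ring
  have h6 : a ^ j * ((1 / (2 * (a * c ^ k) + 1)) ^ j * (c ^ k) ^ j) ≤ (1 / 2) ^ j := by
    rw [← mul_pow, ← mul_pow]
    apply pow_le_pow_left₀ (by positivity)
    have : 0 ≤ a * c ^ k := by positivity
    rw [one_div, ← div_eq_inv_mul, ← mul_div_assoc, div_le_iff₀ (by positivity)]
    linarith
  calc a ^ j * ‖pr _ k (V^[j] x)‖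
      ≤ a ^ j * (K * (1 / (2 * (a * c ^ k) + 1)) ^ j * (c ^ k) ^ j * ‖pr _ k x‖) :=
        mul_le_mul_of_nonneg_left hnorm (by positivity)
    _ = K * (a ^ j * ((1 / (2 * (a * c ^ k) + 1)) ^ j * (c ^ k) ^ j)) * ‖pr _ k x‖ := by ring
    _ ≤ K * (1 / 2) ^ j * ‖pr _ k x‖ := by
        apply mul_le_mul_of_nonneg_right _ (norm_nonneg _)
        exact mul_le_mul_of_nonneg_left h6 hK.le

theorem eq_zero_of_pr_zero (x : RD 𝕜 hw) (h : ‖pr _ 0 x‖ = 0) : x = 0 := by
  apply ext_ev hw
  intro n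
  have h1 : pr _ 0 x = 0 := norm_eq_zero.1 h
  have h2 : x.1 0 = 0 := h1
  simp [ev, h2]

/-- **Total divergence.** -/
theorem total_divergence : ∃ U : RD 𝕜 hw →L[𝕜] RD 𝕜 hw,
    (∀ x n, ev hw (U x) n = w n * ev hw x (n + 1)) ∧
    (∀ c : 𝕜, Function.Bijective fun x => x - c • U x) ∧
    ∀ c : 𝕜, c ≠ 0 → ∀ x : RD 𝕜 hw, x ≠ 0 →
      ¬ ∃ s, Tendsto (fun n => ∑ k ∈ Finset.range n, c ^ k • U^[k] x) atTop (𝓝 s) := by
  obtain ⟨U, hU⟩ := exists_U (𝕜 := 𝕜) hw
  obtain ⟨V, hV⟩ := exists_V (𝕜 := 𝕜) hw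
  have hne : ∀ n, (w n : 𝕜) ≠ 0 := fun n => by exact_mod_cast (w_pos hw n).ne'
  have hUV : ∀ x, U (V x) = x := by
    intro x
    apply ext_ev hw
    intro n
    rw [hU, hV, add_sub_cancel_right, mul_div_cancel₀ _ (hne n)]
  have hVU : ∀ x, V (U x) = x := by
    intro x
    apply ext_ev hw
    intro n
    rw [hV, hU, sub_add_cancel, mul_div_cancel_left₀ _ (hne _)]
  have hVUk : ∀ k x, V^[k] (U^[k] x) = x := fun k x => Function.LeftInverse.iterate hVU k x
  refine ⟨U, hU, ?_, ?_⟩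
  · intro c
    by_cases hc0 : c = 0
    · subst hc0
      have : (fun x : RD 𝕜 hw => x - (0 : 𝕜) • U x) = id := by
        funext x
        simp
      rw [this]
      exact Function.bijective_id
    have hcn : 0 < ‖c‖ := norm_pos_iff.2 hc0
    constructor
    · -- injectivity
      have hinj : ∀ x, x = c • U x → x = 0 := by
        intro x hx
        have h1 : V x = c • x := by
          conv_lhs => rw [hx]
          rw [map_smul, hVU]
        have h2 : ∀ j : ℕ, V^[j] x = c ^ j • x := by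
          intro j
          induction j with
          | zero => simp
          | succ j ih => rw [Function.iterate_succ_apply', ih, map_smul, h1, smul_smul, pow_succ]
        obtain ⟨K, hK, h⟩ := V_decay hw hV 0 ‖c‖⁻¹ (by positivity)
        have h3 : ∀ j : ℕ, ‖pr _ 0 x‖ ≤ K * (1 / 2) ^ j * ‖pr _ 0 x‖ := by
          intro j
          have := h j x
          rw [h2, map_smul, norm_smul, norm_pow, ← mul_assoc, ← mul_pow,
            inv_mul_cancel₀ hcn.ne', one_pow, one_mul] at this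
          exact this
        have ht : Tendsto (fun j : ℕ => K * (1 / 2 : ℝ) ^ j * ‖pr _ 0 x‖) atTop
            (𝓝 (K * 0 * ‖pr _ 0 x‖)) :=
          ((tendsto_pow_atTop_nhds_zero_of_lt_one (by norm_num) (by norm_num)).const_mul
            K).mul_const _
        have h4 := ge_of_tendsto' ht h3
        rw [mul_zero, zero_mul] at h4
        exact eq_zero_of_pr_zero hw x (le_antisymm h4 (norm_nonneg _))
      intro x y hxy
      simp only at hxy
      have h1 : x - y = c • U (x - y) := by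
        rw [map_sub, smul_sub]
        rw [sub_eq_sub_iff_add_eq_add] at hxy ⊢
        rw [add_comm (c • U x)]
        exact hxy
      exact sub_eq_zero.1 (hinj _ h1)
    · -- surjectivity
      intro y
      have hsum : ∀ i, Summable fun j => ‖pr _ i ((c⁻¹) ^ (j + 1) • V^[j + 1] y)‖ := by
        intro i
        obtain ⟨K, hK, h⟩ := V_decay hw hV i ‖c⁻¹‖ (by positivity)
        refine Summable.of_nonneg_of_le (fun _ => norm_nonneg _) (fun j => ?_)
          (((summable_nat_add_iff 1).2 summable_geometric_two).mul_left (K * ‖pr _ i y‖))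
        rw [map_smul, norm_smul, norm_pow]
        refine (h (j + 1) y).trans (le_of_eq ?_)
        ring
      obtain ⟨s, hs⟩ := exists_sum _ _ hsum
      refine ⟨-s, ?_⟩
      have h1 : HasSum (fun j : ℕ => (c⁻¹) ^ j • V^[j] y) (c • U s) := by
        have := (hs.mapL U).const_smul c
        refine this.congr_fun ?_
        intro j
        rw [map_smul, smul_smul, pow_succ', ← mul_assoc, mul_inv_cancel₀ hc0, one_mul,
          Function.iterate_succ_apply', hUV]
      have h2 : HasSum (fun j : ℕ => (c⁻¹) ^ j • V^[j] y) (s + (c⁻¹) ^ 0 • V^[0] y) := by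
        have := (hasSum_nat_add_iff (f := fun j : ℕ => (c⁻¹) ^ j • V^[j] y) 1).1 hs
        simpa using this
      have h3 := h1.unique h2
      rw [pow_zero, one_smul, Function.iterate_zero_apply] at h3
      simp only [map_neg, smul_neg, h3]
      abel
  · rintro c hc0 x hx ⟨s, hs⟩
    have hcn : 0 < ‖c‖ := norm_pos_iff.2 hc0
    have h1 : Tendsto (fun k : ℕ => c ^ k • U^[k] x) atTop (𝓝 0) := by
      have h2 := (hs.comp (tendsto_add_atTop_nat 1)).sub hs
      rw [sub_self] at h2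
      refine h2.congr fun k => ?_
      simp [Finset.sum_range_succ]
    have h3 : Tendsto (fun k : ℕ => ‖pr _ 0 (c ^ k • U^[k] x)‖) atTop (𝓝 0) := by
      have := ((continuous_pr _ 0).norm.tendsto (0 : RD 𝕜 hw)).comp h1
      rw [map_zero, norm_zero] at this
      exact this
    obtain ⟨K, hK, h⟩ := V_decay hw hV 0 ‖c‖⁻¹ (by positivity)
    have h4 : ∀ k : ℕ, ‖pr _ 0 x‖ ≤ K * (1 / 2) ^ k * ‖pr _ 0 (c ^ k • U^[k] x)‖ := by
      intro k
      have h5 := h k (c ^ k • U^[k] x)
      have h6 : V^[k] (c ^ k • U^[k] x) = c ^ k • x := by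
        have hsm : ∀ (j : ℕ) (a : 𝕜) (z : RD 𝕜 hw), V^[j] (a • z) = a • V^[j] z := by
          intro j a z
          induction j generalizing z with
          | zero => rfl
          | succ j ih => rw [Function.iterate_succ_apply, map_smul, ih,
              Function.iterate_succ_apply]
        rw [hsm, hVUk]
      rw [h6, map_smul, norm_smul, norm_pow, ← mul_assoc, ← mul_pow,
            inv_mul_cancel₀ hcn.ne', one_pow, one_mul] at h5
      exact h5
    have ht : Tendsto (fun k : ℕ => K * (1 / 2 : ℝ) ^ k * ‖pr _ 0 (c ^ k • U^[k] x)‖) atTop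
        (𝓝 (K * 0 * 0)) :=
      ((tendsto_pow_atTop_nhds_zero_of_lt_one (by norm_num) (by norm_num)).const_mul K).mul h3
    have h7 := ge_of_tendsto' ht h4
    rw [mul_zero] at h7
    exact hx (eq_zero_of_pr_zero hw x (le_antisymm h7 (norm_nonneg _)))

end Pool.Agent.KS6_10.NS
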