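import Mathlib
import Pool.Agent.KS6_10.NS.Shift

set_option autoImplicit false

namespace Pool.Agent.KS6_10.NS

open Set Filter Topology

/-- `E` is a space of type `(B₀)` (a Fréchet space) over `𝕜`: a complete Hausdorff space whose
topology is given by an increasing sequence of seminorms. -/
def IsB0 (𝕜 E : Type*) [RCLike 𝕜] [AddCommGroup E] [Module 𝕜 E] [UniformSpace E] : Prop :=
  IsUniformAddGroup E ∧ CompleteSpace E ∧ T2Space E ∧
    ∃ p : ℕ → Seminorm 𝕜 E, Monotone p ∧ WithSeminorms p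

section

variable {𝕜 : Type*} [RCLike 𝕜] {X : ℕ → Type*} [∀ n, NormedAddCommGroup (X n)]
    [∀ n, NormedSpace 𝕜 (X n)] (r : ∀ n, X (n + 1) →L[𝕜] X n)

/-- the seminorm `q n` -/
noncomputable def Q (n : ℕ) : Seminorm 𝕜 (ProjLim r) :=
  Seminorm.of (q r n) (q_add r n) (fun c x => q_smul r n c x)

theorem isB0_projLim [∀ n, CompleteSpace (X n)] : IsB0 𝕜 (ProjLim r) := by
  have hu : IsUniformAddGroup (ProjLim r) :=
    inferInstanceAs (IsUniformAddGroup (ProjLim r).toAddSubgroup)
  refine ⟨hu, inferInstance, inferInstance, Q r, fun n m h x => q_mono r h x, ?_⟩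
  have : 𝓝 (0 : ProjLim r) = ⨅ i, (𝓝 (0 : ℝ)).comap (Q r i) := by
    apply le_antisymm
    · refine le_iInf fun i => ?_
      rw [← Filter.tendsto_iff_comap]
      have := (continuous_q r i).tendsto 0
      rwa [q_zero] at this
    · intro V hV
      obtain ⟨m, ε, hε, h⟩ := exists_q_ball r hV
      have h1 : V ∈ (𝓝 (0 : ℝ)).comap (Q r m) := by
        refine ⟨Iio ε, Iio_mem_nhds hε, fun x hx => h x hx⟩
      exact Filter.mem_iInf_of_mem m h1
  exact (SeminormFamily.withSeminorms_iff_nhds_eq_iInf (Q r)).2 this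

end

theorem exists_ne_zero (𝕜 : Type*) [RCLike 𝕜] {w : ℤ → ℝ} (hw : IsWeight w) :
    ∃ x : RD 𝕜 hw, x ≠ 0 := by
  classical
  have hne : (w 0 : 𝕜) ≠ 0 := by exact_mod_cast (w_pos hw 0).ne'
  have hle : ∀ (k : ℕ) (n : ℤ), ‖(if n = 0 then (w 0 : 𝕜) ^ k else 0)‖ ≤ w 0 ^ k := by
    intro k n
    have := w_pos hw 0
    split_ifs
    · rw [norm_pow, RCLike.norm_ofReal, abs_of_pos this]
    · rw [norm_zero]; positivity
  refine ⟨⟨fun k => BoundedContinuousFunction.ofNormedAddCommGroupDiscrete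
    (fun n : ℤ => if n = 0 then (w 0 : 𝕜) ^ k else 0) (w 0 ^ k) (hle k), ?_⟩, ?_⟩
  · intro k
    ext n
    unfold link
    rw [mulComp_apply]
    simp only [id, BoundedContinuousFunction.coe_ofNormedAddCommGroupDiscrete]
    split_ifs with hn
    · subst hn
      push_cast
      rw [pow_succ]
      field_simp
    · simp
  · intro h
    have h1 := congrArg (fun x : RD 𝕜 hw => x.1 0 0) h
    simp at h1

theorem isWeight_linear : IsWeight fun n : ℤ => 1 + |(n : ℝ)| := by
  refine ⟨fun n => ?_, ?_, 2, fun n => ⟨?_, ?_⟩⟩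
  · have := abs_nonneg (n : ℝ); linarith
  · have h1 : Tendsto (fun n : ℤ => |(n : ℝ)|) cofinite atTop := by
      rw [Int.cofinite_eq]
      exact (tendsto_norm_cobounded_atTop (E := ℝ)).comp
        (tendsto_intCast_atBot_sup_atTop_cobounded (α := ℝ))
    exact tendsto_atTop_add_const_left _ _ h1
  · push_cast
    have := abs_add_le (n : ℝ) 1
    have h2 := abs_nonneg (n : ℝ)
    rw [abs_one] at this
    linarith
  · push_cast
    have := abs_sub_abs_le_abs_sub (n : ℝ) (n + 1)
    have h2 := abs_nonneg ((n : ℝ) + 1)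
    have h3 : |(n : ℝ) - (n + 1)| = 1 := by
      rw [show (n : ℝ) - (n + 1) = -1 by ring, abs_neg, abs_one]
    rw [h3] at this
    linarith

theorem isWeight_exp : IsWeight fun n : ℤ => Real.exp |(n : ℝ)| := by
  have h1 : Tendsto (fun n : ℤ => |(n : ℝ)|) cofinite atTop := by
    rw [Int.cofinite_eq]
    exact (tendsto_norm_cobounded_atTop (E := ℝ)).comp
      (tendsto_intCast_atBot_sup_atTop_cobounded (α := ℝ))
  refine ⟨fun n => Real.one_le_exp (abs_nonneg _), Real.tendsto_exp_atTop.comp h1,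
    Real.exp 1, fun n => ⟨?_, ?_⟩⟩
  · rw [← Real.exp_add]
    apply Real.exp_le_exp.2
    push_cast
    have := abs_add_le (n : ℝ) 1
    rw [abs_one] at this
    linarith
  · rw [← Real.exp_add]
    apply Real.exp_le_exp.2
    push_cast
    have := abs_sub_abs_le_abs_sub (n : ℝ) (n + 1)
    have h3 : |(n : ℝ) - (n + 1)| = 1 := by
      rw [show (n : ℝ) - (n + 1) = -1 by ring, abs_neg, abs_one]
    rw [h3] at this
    linarith

/-- over the real numbers the Neumann series can diverge on a product of lines -/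
theorem real_fails : ∃ U : (ℕ → ℂ) →L[ℝ] (ℕ → ℂ),
    (∀ c : ℝ, Function.Bijective fun x => x - c • U x) ∧
      ∀ c : ℝ, c ≠ 0 → ∃ x, ¬ ∃ s,
        Tendsto (fun n => ∑ k ∈ Finset.range n, c ^ k • U^[k] x) atTop (𝓝 s) := by
  let U : (ℕ → ℂ) →L[ℝ] (ℕ → ℂ) := ContinuousLinearMap.pi fun n =>
    ((n : ℂ) * Complex.I) • ContinuousLinearMap.proj (R := ℝ) n
  have hU : ∀ x n, U x n = (n : ℂ) * Complex.I * x n := fun x n => rfl
  have hne : ∀ (c : ℝ) (n : ℕ), (1 : ℂ) - c * ((n : ℂ) * Complex.I) ≠ 0 := by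
    intro c n h
    have := congrArg Complex.re h
    simp at this
  refine ⟨U, fun c => ?_, fun c hc => ?_⟩
  · have h1 : ∀ x n, (x - c • U x) n = (1 - c * ((n : ℂ) * Complex.I)) * x n := by
      intro x n
      simp only [Pi.sub_apply, Pi.smul_apply, hU, Complex.real_smul]
      ring
    constructor
    · intro x y hxy
      funext n
      have h2 := congrFun hxy n
      simp only [] at h2
      rw [h1, h1] at h2
      exact mul_left_cancel₀ (hne c n) h2
    · intro y
      refine ⟨fun n => y n / (1 - c * ((n : ℂ) * Complex.I)), ?_⟩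
      funext n
      simp only []
      rw [h1]
      exact mul_div_cancel₀ _ (hne c n)
  · obtain ⟨m, hm⟩ := exists_nat_gt |c|⁻¹
    refine ⟨fun _ => 1, ?_⟩
    rintro ⟨s, hs⟩
    have hit : ∀ k n, U^[k] (fun _ => 1) n = ((n : ℂ) * Complex.I) ^ k := by
      intro k
      induction k with
      | zero => intro n; simp
      | succ k ih => intro n; rw [Function.iterate_succ_apply', hU, ih, pow_succ]; ring
    have h1 : Tendsto (fun k : ℕ => c ^ k • U^[k] (fun _ => (1 : ℂ))) atTop (𝓝 0) := by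
      have h2 := (hs.comp (tendsto_add_atTop_nat 1)).sub hs
      rw [sub_self] at h2
      refine h2.congr fun k => ?_
      simp [Finset.sum_range_succ]
    have h2 : Tendsto (fun k : ℕ => ‖(c ^ k • U^[k] (fun _ => (1 : ℂ))) m‖) atTop (𝓝 0) := by
      have := ((continuous_apply (A := fun _ : ℕ => ℂ) m).norm.tendsto
        (0 : ℕ → ℂ)).comp h1
      simp only [Pi.zero_apply, norm_zero] at this
      exact this
    have hc0 : 0 < |c| := abs_pos.2 hc
    have h3 : ∀ k : ℕ, (1 : ℝ) ≤ ‖(c ^ k • U^[k] (fun _ => (1 : ℂ))) m‖ := by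
      intro k
      rw [Pi.smul_apply, hit, norm_smul, norm_pow, norm_pow, norm_mul, Complex.norm_I, mul_one,
        Complex.norm_natCast, Real.norm_eq_abs, ← mul_pow]
      apply one_le_pow₀
      rw [inv_lt_iff_one_lt_mul₀ hc0] at hm
      rw [mul_comm]
      exact hm.le
    have := ge_of_tendsto' h2 h3
    linarith

end Pool.Agent.KS6_10.NS
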