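import Mathlib
import Pool.Agent.KS6_10.NS.Lim

set_option autoImplicit false

namespace Pool.Agent.KS6_10.NS

open Set Filter Topology

variable {𝕜 : Type*} [RCLike 𝕜] {X : ℕ → Type*} [∀ n, NormedAddCommGroup (X n)]
    [∀ n, NormedSpace 𝕜 (X n)] [∀ n, CompleteSpace (X n)] (r : ∀ n, X (n + 1) →L[𝕜] X n)

theorem exists_m (T : ProjLim r →L[𝕜] ProjLim r) (hT : Function.Surjective T) (n : ℕ) :
    ∃ m, ∃ ε L : ℝ, 0 < ε ∧ 0 < L ∧
      ∀ v, q r m v < ε → v ∈ closure (T '' {x | q r n x < L}) := by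
  have hf := nonempty_interior_of_iUnion_of_closed
    (f := fun k : ℕ => closure (T '' {x | q r n x < (k : ℝ) + 1})) (fun _ => isClosed_closure)
    (by
      rw [eq_univ_iff_forall]
      intro y
      obtain ⟨x, rfl⟩ := hT y
      obtain ⟨k, hk⟩ := exists_nat_gt (q r n x)
      exact mem_iUnion.2 ⟨k, subset_closure ⟨x, by
        rw [mem_ofPred_eq]; linarith, rfl⟩⟩)
  obtain ⟨k, y0, hy0⟩ := hf
  have hV : {v | y0 + v ∈ closure (T '' {x | q r n x < (k : ℝ) + 1})} ∈ 𝓝 (0 : ProjLim r) := by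
    have hc : Tendsto (fun v : ProjLim r => y0 + v) (𝓝 0) (𝓝 y0) := by
      have : Continuous fun v : ProjLim r => y0 + v := by fun_prop
      simpa using this.tendsto 0
    exact hc (mem_interior_iff_mem_nhds.1 hy0)
  obtain ⟨m, ε, hε, h⟩ := exists_q_ball r hV
  refine ⟨m, ε, 2 * ((k : ℝ) + 1), hε, by positivity, fun v hv => ?_⟩
  have h1 : y0 + v ∈ closure (T '' {x | q r n x < (k : ℝ) + 1}) := h v hv
  have h2 : y0 ∈ closure (T '' {x | q r n x < (k : ℝ) + 1}) := interior_subset hy0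
  have h3 : (y0 + v) - y0 ∈ closure (T '' {x | q r n x < 2 * ((k : ℝ) + 1)}) := by
    refine map_mem_closure₂ continuous_sub h1 h2 ?_
    rintro _ ⟨a, ha, rfl⟩ _ ⟨b, hb, rfl⟩
    refine ⟨a - b, ?_, map_sub _ _ _⟩
    have := q_sub r n a b
    rw [mem_ofPred_eq] at ha hb ⊢
    linarith
  rwa [add_sub_cancel_left] at h3

theorem approx (T : ProjLim r →L[𝕜] ProjLim r) (hT : Function.Surjective T) (n : ℕ) :
    ∃ m, ∃ C : ℝ, 0 < C ∧ ∀ y, ∀ η : ℝ, 0 < η → ∀ V ∈ 𝓝 (0 : ProjLim r),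
      ∃ x, q r n x ≤ C * q r m y + η ∧ y - T x ∈ V := by
  obtain ⟨m, ε, L, hε, hL, h⟩ := exists_m r T hT n
  refine ⟨m, 2 * L / ε, by positivity, fun y η hη V hV => ?_⟩
  obtain ⟨C, hC⟩ : ∃ C, C = 2 * L / ε := ⟨_, rfl⟩
  have hC0 : 0 < C := by rw [hC]; positivity
  obtain ⟨s, hs⟩ : ∃ s, s = (q r m y + η / C) * (2 / ε) := ⟨_, rfl⟩
  have hq := q_nonneg r m y
  have hs0 : 0 < s := by rw [hs]; positivity
  have hs1 : q r m (((s⁻¹ : ℝ) : 𝕜) • y) < ε := by
    rw [q_smul, RCLike.norm_ofReal, abs_of_pos (inv_pos.2 hs0), inv_mul_lt_iff₀ hs0]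
    have : s * ε = 2 * (q r m y + η / C) := by rw [hs]; field_simp
    rw [this]
    have : 0 < η / C := by positivity
    linarith
  have h1 := h _ hs1
  obtain ⟨v, hv⟩ : ∃ v, v = ((s⁻¹ : ℝ) : 𝕜) • y := ⟨_, rfl⟩
  rw [← hv] at h1
  have hsv : ((s : ℝ) : 𝕜) • v = y := by
    rw [hv, smul_smul, ← RCLike.ofReal_mul, mul_inv_cancel₀ hs0.ne', RCLike.ofReal_one, one_smul]
  have hW : {w | ((s : ℝ) : 𝕜) • (v - w) ∈ V} ∈ 𝓝 v := by
    have hc : Continuous fun w : ProjLim r => ((s : ℝ) : 𝕜) • (v - w) := by fun_prop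
    have := hc.tendsto v
    simp only [sub_self, smul_zero] at this
    exact this hV
  obtain ⟨w, hw, ⟨x, hx, rfl⟩⟩ := mem_closure_iff_nhds.1 h1 _ hW
  refine ⟨((s : ℝ) : 𝕜) • x, ?_, ?_⟩
  · rw [q_smul, RCLike.norm_ofReal, abs_of_pos hs0, ← hC]
    rw [mem_ofPred_eq] at hx
    calc s * q r n x ≤ s * L := mul_le_mul_of_nonneg_left hx.le hs0.le
      _ = C * q r m y + η := by
          rw [hs, hC]; field_simp
  · rw [mem_ofPred_eq, smul_sub, hsv] at hw
    rwa [map_smul]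

theorem openMap (T : ProjLim r →L[𝕜] ProjLim r) (hT : Function.Bijective T) (n : ℕ) :
    ∃ m, ∃ C : ℝ, 0 ≤ C ∧ ∀ x, q r n x ≤ C * q r m (T x) := by
  choose mm CC hCC happ using approx r T hT.2
  refine ⟨mm n, CC n, (hCC n).le, fun x0 => ?_⟩
  obtain ⟨y, hy⟩ : ∃ y, y = T x0 := ⟨_, rfl⟩
  rw [← hy]
  apply le_of_forall_pos_le_add
  intro η0 hη0
  obtain ⟨η, hη, hη4⟩ : ∃ η : ℝ, 0 < η ∧ 4 * η = η0 := ⟨η0 / 4, by positivity, by ring⟩
  have hstep : ∀ (j : ℕ) (z : ProjLim r), ∃ x, q r (n + j) x ≤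
      CC (n + j) * q r (mm (n + j)) z + η / 2 ^ j ∧
      CC (n + (j + 1)) * q r (mm (n + (j + 1))) (z - T x) < η / 2 ^ j ∧
      q r j (z - T x) < 1 / 2 ^ j := by
    intro j z
    have hV1 := q_ball_mem r (mm (n + (j + 1))) (ε := (η / 2 ^ j) / CC (n + (j + 1)))
      (div_pos (by positivity) (hCC _))
    have hV2 := q_ball_mem r j (ε := 1 / 2 ^ j) (by positivity)
    obtain ⟨x, hx1, hx2, hx3⟩ := happ (n + j) z (η / 2 ^ j) (by positivity) _ (inter_mem hV1 hV2)
    refine ⟨x, hx1, ?_, hx3⟩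
    rw [mem_ofPred_eq, lt_div_iff₀ (hCC _)] at hx2
    rwa [mul_comm]
  choose g hg1 hg2 hg3 using hstep
  let Y : ℕ → ProjLim r := fun j => Nat.rec y (fun j z => z - T (g j z)) j
  have hY0 : Y 0 = y := rfl
  have hYs : ∀ j, Y (j + 1) = Y j - T (g j (Y j)) := fun j => rfl
  let x : ℕ → ProjLim r := fun j => g j (Y j)
  have hx : ∀ j, x j = g j (Y j) := fun j => rfl
  have hb0 : q r n (x 0) ≤ CC n * q r (mm n) y + η := by
    have := hg1 0 (Y 0)
    simpa [hY0, hx] using this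
  have hb : ∀ j, q r (n + (j + 1)) (x (j + 1)) ≤ 3 * η * (1 / 2) ^ (j + 1) := by
    intro j
    have h1 := hg1 (j + 1) (Y (j + 1))
    have h2 := hg2 j (Y j)
    rw [← hYs j] at h2
    rw [hx]
    calc _ ≤ _ := h1
      _ ≤ η / 2 ^ j + η / 2 ^ (j + 1) := by linarith
      _ = 3 * η * (1 / 2) ^ (j + 1) := by
          rw [one_div, inv_pow, pow_succ]
          field_simp
          ring
  have hgeo : Summable fun j : ℕ => 3 * η * (1 / 2 : ℝ) ^ (j + 1) :=
    ((summable_nat_add_iff 1).2 summable_geometric_two).mul_left _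
  have hsum : ∀ i, Summable fun j => ‖pr r i (x j)‖ := by
    intro i
    rw [← summable_nat_add_iff (i + 1)]
    refine Summable.of_nonneg_of_le (fun _ => norm_nonneg _) (fun j => ?_)
      ((summable_nat_add_iff i).2 hgeo)
    have h1 := hb (j + i)
    exact (le_q r (i := i) (n := n + (j + i + 1)) (by omega) _).trans h1
  obtain ⟨s, hs⟩ := exists_sum r x hsum
  have hst := hs.tendsto_sum_nat
  -- the images of the partial sums
  have hT1 : ∀ J, T (∑ j ∈ Finset.range J, x j) = y - Y J := by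
    intro J
    induction J with
    | zero => simp [hY0]
    | succ J ih =>
      rw [Finset.sum_range_succ, map_add, ih, hYs J, hx]
      abel
  have hY : Tendsto Y atTop (𝓝 0) := by
    rw [← tendsto_add_atTop_iff_nat 1]
    intro V hV
    obtain ⟨m, ε, hε, h⟩ := exists_q_ball r hV
    have h2 : ∀ᶠ J : ℕ in atTop, (1 : ℝ) / 2 ^ J < ε := by
      have : Tendsto (fun J : ℕ => (1 : ℝ) / 2 ^ J) atTop (𝓝 0) :=
        tendsto_const_nhds.div_atTop (tendsto_pow_atTop_atTop_of_one_lt (by norm_num))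
      exact this (Iio_mem_nhds hε)
    change ∀ᶠ J : ℕ in atTop, Y (J + 1) ∈ V
    filter_upwards [h2, eventually_ge_atTop m] with J hJ hJm
    apply h
    have h3 := hg3 J (Y J)
    rw [← hYs J] at h3
    exact ((q_mono r hJm _).trans_lt h3).trans hJ
  have hTs : T s = y := by
    have h1 : Tendsto (fun J => T (∑ j ∈ Finset.range J, x j)) atTop (𝓝 (T s)) :=
      (T.continuous.tendsto s).comp hst
    have h2 : Tendsto (fun J => y - Y J) atTop (𝓝 (y - 0)) := tendsto_const_nhds.sub hY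
    simp only [hT1] at h1
    rw [sub_zero] at h2
    exact tendsto_nhds_unique h1 h2
  have hsx : s = x0 := hT.1 (by rw [hTs, hy])
  rw [← hsx]
  have hqt : Tendsto (fun J => q r n (∑ j ∈ Finset.range (J + 1), x j)) atTop (𝓝 (q r n s)) :=
    ((continuous_q r n).tendsto s).comp (hst.comp (tendsto_add_atTop_nat 1))
  refine le_of_tendsto' hqt fun J => ?_
  have h1 : ∀ J, q r n (∑ j ∈ Finset.range (J + 1), x j) ≤
      (CC n * q r (mm n) y + η) + ∑ j ∈ Finset.range J, 3 * η * (1 / 2 : ℝ) ^ (j + 1) := by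
    intro J
    induction J with
    | zero => simpa using hb0
    | succ J ih =>
      rw [Finset.sum_range_succ x (J + 1),
        Finset.sum_range_succ (fun j : ℕ => 3 * η * (1 / 2 : ℝ) ^ (j + 1)) J]
      have h2 := q_add r n (∑ j ∈ Finset.range (J + 1), x j) (x (J + 1))
      have h3 := (q_mono r (show n ≤ n + (J + 1) by omega) (x (J + 1))).trans (hb J)
      linarith
  have h2 : ∑ j ∈ Finset.range J, 3 * η * (1 / 2 : ℝ) ^ (j + 1) ≤ 3 * η := by
    rw [← Finset.mul_sum]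
    have h3 : ∑ j ∈ Finset.range J, (1 / 2 : ℝ) ^ (j + 1) ≤ 1 := by
      have h4 := Summable.sum_le_tsum (Finset.range J)
        (fun j _ => by positivity) ((summable_nat_add_iff 1).2 summable_geometric_two)
      have h5 : ∑' j : ℕ, (1 / 2 : ℝ) ^ (j + 1) = 1 := by
        simp only [pow_succ]
        rw [tsum_mul_right, tsum_geometric_two]
        norm_num
      linarith
    have := mul_le_mul_of_nonneg_left h3 (show (0 : ℝ) ≤ 3 * η by positivity)
    linarith
  have := h1 J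
  linarith

end Pool.Agent.KS6_10.NS
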