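import Mathlib
import Pool.Agent.KS6_10.NS.Core2
import Pool.Agent.KS6_10.NS.OpenMap

/-!
# The Neumann series converges on quojections
-/

set_option autoImplicit false

namespace Pool.Agent.KS6_10.NS

open Set Filter Topology

section lift

variable {𝕜 : Type*} [RCLike 𝕜] {X : ℕ → Type*} [∀ n, NormedAddCommGroup (X n)]
    [∀ n, NormedSpace 𝕜 (X n)] (r : ∀ n, X (n + 1) →L[𝕜] X n)

theorem exists_below (n : ℕ) (a : X n) :
    ∃ x : ∀ j, X j, (∀ j < n, r j (x (j + 1)) = x j) ∧ x n = a := by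
  induction n with
  | zero => exact ⟨Function.update 0 0 a, fun j hj => absurd hj (Nat.not_lt_zero j), by simp⟩
  | succ n ih =>
    obtain ⟨x, hx, hxn⟩ := ih (r n a)
    refine ⟨Function.update x (n + 1) a, fun j hj => ?_, by simp⟩
    rw [Function.update_of_ne (show j ≠ n + 1 by omega)]
    by_cases h : j = n
    · subst h
      simp [hxn]
    · rw [Function.update_of_ne (show j + 1 ≠ n + 1 by omega)]
      exact hx j (by omega)

theorem exists_lift (g : ∀ n, X n → X (n + 1)) (hg : ∀ n a, r n (g n a) = a) (n : ℕ) (a : X n) :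
    ∃ y : ProjLim r, pr r n y = a ∧ ∀ j, n ≤ j → pr r (j + 1) y = g j (pr r j y) := by
  obtain ⟨x, hx, hxn⟩ := exists_below r n a
  let y : ∀ j, X j := fun j =>
    Nat.rec (x 0) (fun j b => if j + 1 ≤ n then x (j + 1) else g j b) j
  have hy0 : y 0 = x 0 := rfl
  have hys : ∀ j, y (j + 1) = if j + 1 ≤ n then x (j + 1) else g j (y j) := fun j => rfl
  have hyx : ∀ j, j ≤ n → y j = x j := by
    intro j hj
    cases j with
    | zero => exact hy0
    | succ j => rw [hys, if_pos hj]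
  refine ⟨⟨y, ?_⟩, ?_, ?_⟩
  · intro j
    by_cases hj : j + 1 ≤ n
    · rw [hyx _ hj, hyx j (by omega)]
      exact hx j (by omega)
    · rw [hys, if_neg hj, hg]
  · change y n = a
    rw [hyx n le_rfl, hxn]
  · intro j hj
    change y (j + 1) = g j (y j)
    rw [hys, if_neg (by omega)]

variable [∀ n, CompleteSpace (X n)]

theorem exists_lift_bound (hr : ∀ n, Function.Surjective (r n)) (n m : ℕ) :
    ∃ C : ℝ, 0 ≤ C ∧ ∀ a : X n, ∃ y : ProjLim r, pr r n y = a ∧ ‖pr r m y‖ ≤ C * ‖a‖ := by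
  have h := fun n => (r n).exists_preimage_norm_le (hr n)
  choose B hB hB' using h
  choose g hg hgB using hB'
  by_cases hnm : n ≤ m
  · have hind : ∃ C : ℝ, 0 ≤ C ∧ ∀ a : X n, ∀ y : ProjLim r, pr r n y = a →
        (∀ j, n ≤ j → pr r (j + 1) y = g j (pr r j y)) → ‖pr r m y‖ ≤ C * ‖a‖ := by
      induction m, hnm using Nat.le_induction with
      | base => exact ⟨1, zero_le_one, fun a y hy _ => by rw [hy, one_mul]⟩
      | succ m hm ih =>
        obtain ⟨C, hC, hC'⟩ := ih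
        refine ⟨B m * C, mul_nonneg (hB m).le hC, fun a y hy hyg => ?_⟩
        rw [hyg m hm]
        calc _ ≤ B m * ‖pr r m y‖ := hgB m _
          _ ≤ B m * (C * ‖a‖) := mul_le_mul_of_nonneg_left (hC' a y hy hyg) (hB m).le
          _ = _ := by ring
    obtain ⟨C, hC, hC'⟩ := hind
    refine ⟨C, hC, fun a => ?_⟩
    obtain ⟨y, hy, hyg⟩ := exists_lift r g hg n a
    exact ⟨y, hy, hC' a y hy hyg⟩
  · obtain ⟨K, hK, hK'⟩ := pr_mono r m n (by omega)
    refine ⟨K, hK, fun a => ?_⟩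
    obtain ⟨y, hy, -⟩ := exists_lift r g hg n a
    exact ⟨y, hy, by rw [← hy]; exact hK' y⟩

theorem quo_projLim (hr : ∀ n, Function.Surjective (r n)) (n m : ℕ) :
    ∃ C : ℝ, 0 ≤ C ∧ ∀ x, ∃ z, pr r n z = 0 ∧ ‖pr r m (x + z)‖ ≤ C * ‖pr r n x‖ := by
  obtain ⟨C, hC, h⟩ := exists_lift_bound r hr n m
  refine ⟨C, hC, fun x => ?_⟩
  obtain ⟨y, hy, hy'⟩ := h (pr r n x)
  refine ⟨y - x, by rw [map_sub, hy, sub_self], ?_⟩
  rwa [add_sub_cancel]

end lift

variable {X : ℕ → Type*} [∀ n, NormedAddCommGroup (X n)] [∀ n, NormedSpace ℂ (X n)]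
  [∀ n, CompleteSpace (X n)] (r : ∀ n, X (n + 1) →L[ℂ] X n)

/-- the system of a quojection -/
theorem exists_sys (hr : ∀ n, Function.Surjective (r n)) (U : ProjLim r →L[ℂ] ProjLim r) {δ : ℝ}
    (hδ : 0 < δ) (hU : ∀ c : ℂ, ‖c‖ < δ → Function.Bijective fun x => x - c • U x) :
    ∃ S : Sys (ProjLim r) X, S.π = pr r ∧ S.U = U ∧ S.δ = δ := by
  classical
  have hcont : ∀ c : ℂ, ‖c‖ < δ → ∃ R : ProjLim r →ₗ[ℂ] ProjLim r,
      (∀ x, R (x - c • U x) = x) ∧ (∀ x, R x - c • U (R x) = x) ∧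
      ∀ n, ∃ m, ∃ C : ℝ, 0 ≤ C ∧ ∀ x, ‖pr r n (R x)‖ ≤ C * ‖pr r m x‖ := by
    intro c hc
    let T : ProjLim r →L[ℂ] ProjLim r := ContinuousLinearMap.id ℂ _ - c • U
    have hT : ∀ x, T x = x - c • U x := fun x => rfl
    have hTb : Function.Bijective T := hU c hc
    let e : ProjLim r ≃ₗ[ℂ] ProjLim r := LinearEquiv.ofBijective (T : ProjLim r →ₗ[ℂ] ProjLim r) hTb
    have he : ∀ x, e x = x - c • U x := fun x => rfl
    refine ⟨e.symm, fun x => ?_, fun x => ?_, fun n => ?_⟩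
    · change e.symm (x - c • U x) = x
      rw [← he, LinearEquiv.symm_apply_apply]
    · change e.symm x - c • U (e.symm x) = x
      rw [← he, LinearEquiv.apply_symm_apply]
    · obtain ⟨m, C, hC, h⟩ := openMap r T hTb n
      obtain ⟨K, hK, hK'⟩ := q_le r m
      refine ⟨m, C * K, mul_nonneg hC hK, fun x => ?_⟩
      change ‖pr r n (e.symm x)‖ ≤ _
      have h1 := h (e.symm x)
      have h2 : T (e.symm x) = x := e.apply_symm_apply x
      rw [h2] at h1
      calc _ ≤ q r n (e.symm x) := le_q r le_rfl _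
        _ ≤ C * q r m x := h1
        _ ≤ C * (K * ‖pr r m x‖) := mul_le_mul_of_nonneg_left (hK' x) hC
        _ = _ := by ring
  choose! R hR1 hR2 hR3 using hcont
  exact ⟨{  π := pr r
            U := U
            R := R
            δ := δ
            hδ := hδ
            mono := pr_mono r
            quo := quo_projLim r hr
            contU := bound_of_continuous r U
            contR := hR3
            left := hR1
            right := hR2 }, rfl, rfl, rfl⟩

/-- **The Neumann series on quojections.** -/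
theorem neumann_quojection (hr : ∀ n, Function.Surjective (r n))
    (U : ProjLim r →L[ℂ] ProjLim r) {δ : ℝ}
    (hU : ∀ c : ℂ, ‖c‖ < δ → Function.Bijective fun x => x - c • U x) (c : ℂ) (hc : ‖c‖ < δ)
    (x : ProjLim r) : ∃ s, HasSum (fun k : ℕ => c ^ k • U^[k] x) s ∧ s - c • U s = x := by
  have hδ : 0 < δ := lt_of_le_of_lt (norm_nonneg _) hc
  obtain ⟨S, hS1, hS2, hS3⟩ := exists_sys r hr U hδ hU
  obtain ⟨ρ, hρ1, hρ2⟩ := exists_between hc
  have hρ0 : 0 < ρ := lt_of_le_of_lt (norm_nonneg _) hρ1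
  have hit : ∀ k, (S.U ^ k) x = U^[k] x := by
    intro k
    rw [hS2, Module.End.pow_apply]
    rfl
  have hsum : ∀ i, Summable fun k => ‖pr r i (c ^ k • U^[k] x)‖ := by
    intro i
    obtain ⟨M, hM⟩ := coeff_bound S i hρ0 (by rw [hS3]; exact hρ2) x
    have hg : Summable fun k : ℕ => M * (‖c‖ / ρ) ^ k :=
      (summable_geometric_of_lt_one (by positivity) ((div_lt_one hρ0).2 hρ1)).mul_left M
    refine Summable.of_nonneg_of_le (fun _ => norm_nonneg _) (fun k => ?_) hg
    have h1 := hM k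
    rw [hit, hS1] at h1
    rw [map_smul, norm_smul, norm_pow, div_pow]
    have h2 : ‖pr r i (U^[k] x)‖ ≤ M / ρ ^ k := by
      rw [le_div_iff₀ (by positivity), mul_comm]
      exact h1
    calc ‖c‖ ^ k * ‖pr r i (U^[k] x)‖ ≤ ‖c‖ ^ k * (M / ρ ^ k) :=
          mul_le_mul_of_nonneg_left h2 (by positivity)
      _ = M * (‖c‖ ^ k / ρ ^ k) := by ring
  obtain ⟨s, hs⟩ := exists_sum r _ hsum
  refine ⟨s, hs, ?_⟩
  have h1 : HasSum (fun k : ℕ => c ^ (k + 1) • U^[k + 1] x) (c • U s) := by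
    have := (hs.mapL U).const_smul c
    refine this.congr_fun ?_
    intro k
    rw [map_smul, smul_smul, pow_succ', Function.iterate_succ_apply']
  have h2 : HasSum (fun k : ℕ => c ^ k • U^[k] x) (c • U s + c ^ 0 • U^[0] x) := by
    have := (hasSum_nat_add_iff (f := fun k : ℕ => c ^ k • U^[k] x) 1).1 h1
    simpa using this
  have h3 := hs.unique h2
  rw [pow_zero, one_smul, Function.iterate_zero_apply] at h3
  rw [sub_eq_iff_eq_add, add_comm]
  exact h3

end Pool.Agent.KS6_10.NS
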