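import Mathlib
import Pool.Agent.KS6_10.NS.Quo
import Pool.Agent.KS6_10.NS.Examples

set_option autoImplicit false

namespace Pool.Agent.KS6_10.NS

open Filter Topology BoundedContinuousFunction

section

variable {𝕜 E : Type*} [RCLike 𝕜] [AddCommGroup E] [Module 𝕜 E] [TopologicalSpace E]

/-- `I - c U` is a bijection of `E` for all scalars `c` with `‖c‖ < δ`. -/
def InvertibleOn (U : E →L[𝕜] E) (δ : ℝ) : Prop :=
  ∀ c : 𝕜, ‖c‖ < δ → Function.Bijective fun x => x - c • U x

/-- For all scalars `c` with `‖c‖ < δ` and all `x` the Neumann series `∑ c ^ k U ^ k x` converges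
(unconditionally) in `E`, and its sum is `(I - c U)⁻¹ x`. -/
def NeumannOn (U : E →L[𝕜] E) (δ : ℝ) : Prop :=
  ∀ c : 𝕜, ‖c‖ < δ → ∀ x, ∃ s, HasSum (fun k : ℕ => c ^ k • U^[k] x) s ∧ s - c • U s = x

/-- The partial sums of the Neumann series at `c` and `x` have no limit. -/
def Diverges (U : E →L[𝕜] E) (c : 𝕜) (x : E) : Prop :=
  ¬ ∃ s, Tendsto (fun n => ∑ k ∈ Finset.range n, c ^ k • U^[k] x) atTop (𝓝 s)

end

/-- A sequence of Banach spaces `X n` with continuous linear linking maps
`r n : X (n + 1) → X n`. -/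
structure BSeq (𝕜 : Type) [RCLike 𝕜] where
  X : ℕ → Type
  group : ∀ n, NormedAddCommGroup (X n)
  space : ∀ n, NormedSpace 𝕜 (X n)
  complete : ∀ n, CompleteSpace (X n)
  r : ∀ n, X (n + 1) →L[𝕜] X n

attribute [instance] BSeq.group BSeq.space BSeq.complete

section

variable {𝕜 : Type} [RCLike 𝕜] (B : BSeq 𝕜)

/-- The product of the spaces, with its product uniformity. -/
def BSeq.Pr : Type := ∀ n, B.X n

noncomputable instance : AddCommGroup B.Pr := Pi.addCommGroup
noncomputable instance : Module 𝕜 B.Pr := Pi.module _ _ _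
noncomputable instance : UniformSpace B.Pr := Pi.uniformSpace _

/-- The linking maps. -/
def BSeq.map (n : ℕ) (a : B.X (n + 1)) : B.X n := B.r n a

/-- The threads. -/
def BSeq.IsThread (x : B.Pr) : Prop := ∀ n, B.map n (x (n + 1)) = x n

theorem BSeq.isThread_add {x y : B.Pr} (hx : B.IsThread x) (hy : B.IsThread y) :
    B.IsThread (x + y) := (ProjLim B.r).add_mem hx hy

theorem BSeq.isThread_zero : B.IsThread 0 := (ProjLim B.r).zero_mem

theorem BSeq.isThread_smul (c : 𝕜) {x : B.Pr} (hx : B.IsThread x) : B.IsThread (c • x) :=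
  (ProjLim B.r).smul_mem c hx

/-- The subspace of the threads. -/
def BSeq.threads : Submodule 𝕜 B.Pr where
  carrier := {x | B.IsThread x}
  add_mem' := B.isThread_add
  zero_mem' := B.isThread_zero
  smul_mem' := B.isThread_smul

/-- The projective limit of a sequence of Banach spaces: the space of the threads, as a subspace
of the product (with the induced uniformity). -/
def Lim : Type := B.threads

noncomputable instance : AddCommGroup (Lim B) := B.threads.addCommGroup
noncomputable instance : Module 𝕜 (Lim B) := B.threads.module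
noncomputable instance : UniformSpace (Lim B) := instUniformSpaceSubtype

end

section

variable (𝕜 : Type) [RCLike 𝕜]

/-- The Banach space of the bounded functions on `ℤ`, with the supremum norm. -/
def Bdd : Type := ℤ →ᵇ 𝕜

noncomputable instance : NormedAddCommGroup (Bdd 𝕜) :=
  BoundedContinuousFunction.instNormedAddCommGroup
noncomputable instance : NormedSpace 𝕜 (Bdd 𝕜) := BoundedContinuousFunction.instNormedSpace
instance : CompleteSpace (Bdd 𝕜) := BoundedContinuousFunction.instCompleteSpace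

variable {𝕜}

/-- the values of a bounded function -/
def Bdd.val (f : Bdd 𝕜) : ℤ → 𝕜 := (BoundedContinuousFunction.toContinuousMap f).toFun

theorem Bdd.div_bound {w : ℤ → ℝ} (hw : IsWeight w) (f : Bdd 𝕜) (n : ℤ) :
    ‖(((w n)⁻¹ : ℝ) : 𝕜) * f.val n‖ ≤ 1 * ‖f‖ := by
  rw [norm_mul, RCLike.norm_ofReal]
  exact mul_le_mul (inv_w_le hw n) (BoundedContinuousFunction.norm_coe_le_norm (f : ℤ →ᵇ 𝕜) n)
    (norm_nonneg _) zero_le_one

/-- The function `f / w`. -/
noncomputable def Bdd.div {w : ℤ → ℝ} (hw : IsWeight w) (f : Bdd 𝕜) : Bdd 𝕜 :=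
  BoundedContinuousFunction.ofNormedAddCommGroupDiscrete (fun n => (((w n)⁻¹ : ℝ) : 𝕜) * f.val n)
    (1 * ‖f‖) (f.div_bound hw)

theorem Bdd.div_add {w : ℤ → ℝ} (hw : IsWeight w) (f g : Bdd 𝕜) :
    (f + g).div hw = f.div hw + g.div hw := map_add (link 𝕜 hw 0) f g

theorem Bdd.div_smul {w : ℤ → ℝ} (hw : IsWeight w) (c : 𝕜) (f : Bdd 𝕜) :
    (c • f).div hw = c • f.div hw := map_smul (link 𝕜 hw 0) c f

theorem Bdd.div_cont {w : ℤ → ℝ} (hw : IsWeight w) :
    Continuous fun f : Bdd 𝕜 => f.div hw := (link 𝕜 hw 0).continuous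

/-- Division by `w` as a continuous linear map. -/
noncomputable def Bdd.link {w : ℤ → ℝ} (hw : IsWeight w) : Bdd 𝕜 →L[𝕜] Bdd 𝕜 where
  toFun f := f.div hw
  map_add' := Bdd.div_add hw
  map_smul' := Bdd.div_smul hw
  cont := Bdd.div_cont hw

/-- The constant sequence of the space of bounded functions on `ℤ`, with `f ↦ f / w` as linking
maps. The member `k` of a thread is `w ^ k * x`, where `x` is the member `0`; so the projective
limit is the space of the `x : ℤ → 𝕜` such that all `w ^ k * x` are bounded. -/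
noncomputable def weightSeq (𝕜 : Type) [RCLike 𝕜] {w : ℤ → ℝ} (hw : IsWeight w) : BSeq 𝕜 :=
  ⟨fun _ => Bdd 𝕜, fun _ => inferInstance, fun _ => inferInstance, fun _ => inferInstance,
    fun _ => Bdd.link hw⟩

/-- the function `x` of an element of the projective limit: the member `0` of the thread -/
def fn {w : ℤ → ℝ} (hw : IsWeight w) (x : Lim (weightSeq 𝕜 hw)) : ℤ → 𝕜 := Bdd.val (x.1 0)

end

/-- The projective limits of sequences of complex Banach spaces are spaces of type `(B₀)`, and if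
the linking maps are surjective (the limit is a quojection), then the Neumann series of each
continuous operator converges in the whole disc in which the resolvents exist. -/
def NeumannOnQuojections : Prop :=
  ∀ B : BSeq ℂ, IsB0 ℂ (Lim B) ∧ ((∀ n, Function.Surjective (B.r n)) →
    ∀ (U : Lim B →L[ℂ] Lim B) (δ : ℝ), InvertibleOn U δ → NeumannOn U δ)

/-- The weighted shift on the space of the functions `x` on `ℤ` with all `w ^ k x` bounded: all
`I - c U` are bijective, and the Neumann series diverges for all `c ≠ 0` and all `x ≠ 0`. -/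
def TotalDivergence (𝕜 : Type) [RCLike 𝕜] {w : ℤ → ℝ} (hw : IsWeight w) : Prop :=
  IsB0 𝕜 (Lim (weightSeq 𝕜 hw)) ∧ (∃ x : Lim (weightSeq 𝕜 hw), x ≠ 0) ∧
    ∃ U : Lim (weightSeq 𝕜 hw) →L[𝕜] Lim (weightSeq 𝕜 hw),
      (∀ x n, fn hw (U x) n = w n * fn hw x (n + 1)) ∧ (∀ δ, InvertibleOn U δ) ∧
        ∀ c : 𝕜, c ≠ 0 → ∀ x, x ≠ 0 → Diverges U c x

/-- Over the real numbers, on the product of countably many planes. -/
def RealProductFails : Prop :=
  ∃ U : (ℕ → ℂ) →L[ℝ] (ℕ → ℂ), (∀ δ, InvertibleOn U δ) ∧ ∀ c : ℝ, c ≠ 0 → ∃ x, Diverges U c x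

theorem neumannOnQuojections : NeumannOnQuojections := by
  intro B
  refine ⟨isB0_projLim B.r, fun hr U δ hU c hc x => ?_⟩
  exact neumann_quojection B.r hr U hU c hc x

theorem totalDivergence {𝕜 : Type} [RCLike 𝕜] {w : ℤ → ℝ} (hw : IsWeight w) :
    TotalDivergence 𝕜 hw := by
  obtain ⟨U, h1, h2, h3⟩ := total_divergence (𝕜 := 𝕜) hw
  exact ⟨isB0_projLim (weightSeq 𝕜 hw).r, exists_ne_zero 𝕜 hw, U, h1, fun δ c _ => h2 c, h3⟩

theorem realProductFails : RealProductFails := by
  obtain ⟨U, h1, h2⟩ := real_fails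
  exact ⟨U, fun δ c _ => h1 c, h2⟩

end Pool.Agent.KS6_10.NS
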